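import Pool.Agent.Q140.QUAD.Stmts

namespace Pool.Agent.Q140.QUAD
open Set

theorem u_add_pi_div_two (θ : ℝ) : u (θ + Real.pi / 2) = Complex.I * u θ := by
  apply Complex.ext <;> simp [u, Real.cos_add_pi_div_two, Real.sin_add_pi_div_two]

theorem u_two_pi (θ : ℝ) : u (θ + 2 * Real.pi) = u θ := by simp [u]

theorem rad_two_pi (F : Set ℂ) (o : ℂ) (t : ℝ) : rad F o (t + 2 * Real.pi) = rad F o t := by
  simp [rad, u_two_pi]

theorem P_two_pi (F : Set ℂ) (o : ℂ) (t : ℝ) : P F o (t + 2 * Real.pi) = P F o t := by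
  simp [P, u_two_pi, rad_two_pi]

theorem Supp.add_two_pi {F : Set ℂ} {o : ℂ} {t τ : ℝ} (h : Supp F o t τ) :
    Supp F o (t + 2 * Real.pi) (τ + 2 * Real.pi) :=
  ⟨by linarith [h.1], by linarith [h.2.1], by rw [u_two_pi, P_two_pi]; exact h.2.2⟩

theorem var_two_pi (F : Set ℂ) (o : ℂ) (s t : ℝ) :
    eVariationOn (P F o) (Icc (s + 2 * Real.pi) (t + 2 * Real.pi)) = eVariationOn (P F o) (Icc s t) := by
  have h := eVariationOn.comp_eq_of_monotoneOn (P F o) (t := Icc s t) (fun x => x + 2 * Real.pi)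
    (fun x _ y _ h => by simpa using h)
  have h2 : (P F o ∘ fun x => x + 2 * Real.pi) = P F o := funext (fun x => P_two_pi F o x)
  rw [h2] at h
  rw [h]; congr 1; simp

structure Quad (F : Set ℂ) (o : ℂ) (l t1 t2 t3 t4 : ℝ) : Prop where
  h12 : t1 < t2
  h23 : t2 < t3
  h34 : t3 < t4
  h41 : t4 < t1 + 2 * Real.pi
  v1 : eVariationOn (P F o) (Icc t1 t2) = ENNReal.ofReal l
  v2 : eVariationOn (P F o) (Icc t2 t3) = ENNReal.ofReal l
  v3 : eVariationOn (P F o) (Icc t3 t4) = ENNReal.ofReal l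
  v4 : eVariationOn (P F o) (Icc t4 (t1 + 2 * Real.pi)) = ENNReal.ofReal l
  perp : (P F o t1 - P F o t3).re * (P F o t2 - P F o t4).re
    + (P F o t1 - P F o t3).im * (P F o t2 - P F o t4).im = 0

theorem Quad.rot {F : Set ℂ} {o : ℂ} {l t1 t2 t3 t4 : ℝ} (h : Quad F o l t1 t2 t3 t4) :
    Quad F o l t2 t3 t4 (t1 + 2 * Real.pi) where
  h12 := h.h23
  h23 := h.h34
  h34 := h.h41
  h41 := by linarith [h.h12]
  v1 := h.v2
  v2 := h.v3
  v3 := h.v4
  v4 := by rw [var_two_pi]; exact h.v1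
  perp := by
    rw [P_two_pi]
    have := h.perp
    simp only [Complex.sub_re, Complex.sub_im] at this ⊢
    linarith

theorem P_ne (hRad : TaskRad) {F : Set ℂ} {o : ℂ} (hB : Body F o) {s t : ℝ} (h1 : s < t)
    (h2 : t < s + 2 * Real.pi) : P F o s ≠ P F o t := by
  intro h
  have hs := (hRad F o hB s).1
  have ht := (hRad F o hB t).1
  have hre := congrArg Complex.re h
  have him := congrArg Complex.im h
  simp [P, u] at hre him
  have e1 : rad F o t * Real.sin (t - s) = 0 := by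
    rw [Real.sin_sub]
    linear_combination (-Real.cos s) * him + Real.sin s * hre
  have e2 : rad F o s = rad F o t * Real.cos (t - s) := by
    rw [Real.cos_sub]
    linear_combination Real.cos s * hre + Real.sin s * him - rad F o s * Real.cos_sq_add_sin_sq s
  have e3 : Real.sin (t - s) = 0 := by
    rcases mul_eq_zero.1 e1 with h | h
    · exact absurd h ht.ne'
    · exact h
  have e4 : 0 < Real.cos (t - s) := by
    by_contra hh; push Not at hh; nlinarith
  have e5 : Real.cos (t - s) = 1 := by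
    have := Real.cos_sq_add_sin_sq (t - s)
    rw [e3] at this; nlinarith
  have := (Real.cos_eq_one_iff_of_lt_of_lt (by linarith [Real.pi_pos]) (by linarith)).1 e5
  linarith

theorem QQ_rect (a b α : ℝ) : QQ ⟨-a, b⟩ ⟨-a, -b⟩ ⟨a, -b⟩ ⟨a, b⟩ (a + b) (a + b) (a + b) (a + b) α =
    8 * a * b ^ 2 * (a + b) * (Real.cos (α / 2) - Real.sin (α / 2)) ^ 2 := by
  simp only [QQ, XX, Matrix.mul_apply, Fin.sum_univ_two, Matrix.cons_val_zero, Matrix.cons_val_one,
    Matrix.of_apply, Matrix.cons_val', Matrix.cons_val_fin_one]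
  generalize Real.cos (α / 2) = x
  generalize Real.sin (α / 2) = y
  ring

theorem QQ_rect' (a b α : ℝ) : QQ ⟨-a, b⟩ ⟨-a, -b⟩ ⟨a, -b⟩ ⟨a, b⟩ (a + -b) (a + -b) (a + -b) (a + -b) α =
    -(8 * a * b ^ 2 * (a - b)) * (Real.cos (α / 2) + Real.sin (α / 2)) ^ 2 := by
  simp only [QQ, XX, Matrix.mul_apply, Fin.sum_univ_two, Matrix.cons_val_zero, Matrix.cons_val_one,
    Matrix.of_apply, Matrix.cons_val', Matrix.cons_val_fin_one]
  generalize Real.cos (α / 2) = x
  generalize Real.sin (α / 2) = y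
  ring

theorem TT_refl (a b c d l : ℝ) : TT ⟨-a, -b⟩ ⟨-c, -(-b)⟩ ⟨c, -(-d)⟩ ⟨a, -d⟩ l l l l =
    TT ⟨-a, b⟩ ⟨-c, -b⟩ ⟨c, -d⟩ ⟨a, d⟩ l l l l := by
  simp only [TT]; ring

theorem PI_refl (a b c d l : ℝ) : PI ⟨-a, -b⟩ ⟨-c, -(-b)⟩ ⟨c, -(-d)⟩ ⟨a, -d⟩ l l l l =
    PI ⟨-a, b⟩ ⟨-c, -b⟩ ⟨c, -d⟩ ⟨a, d⟩ l l l l := by
  simp only [PI]; ring

set_option maxHeartbeats 4000000 in
theorem core (hRad : TaskRad) (hLift : TaskLift) (hSupp : TaskSupp) (hEdge : TaskEdge) (hMono : TaskMono)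
    (hArc : TaskArc) (hSign : TaskSign) (hDisc : TaskDisc) (hRot : TaskRot) (hAlg : TaskAlg)
    {F : Set ℂ} {o : ℂ} {l t1 t2 t3 t4 : ℝ} (hB : Body F o) (hl : 0 < l) (hQ : Quad F o l t1 t2 t3 t4)
    (hle : ‖P F o t1 - P F o t3‖ + ‖P F o t2 - P F o t4‖ ≤ 2 * l) {τ1 : ℝ} (h1 : Supp F o t1 τ1) :
    ∃ (e X : ℂ) (a b : ℝ), e.re ^ 2 + e.im ^ 2 = 1 ∧ 0 < a ∧ 0 < b ∧ a + b = l ∧
      P F o t1 = X + a * e ∧ P F o t3 = X - a * e ∧ P F o t2 = X + b * (Complex.I * e) ∧
      P F o t4 = X - b * (Complex.I * e) ∧ u τ1 = Complex.I * e := by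
  obtain ⟨τ2, h2⟩ := hSupp hRad hLift F o hB t2
  obtain ⟨τ3, h3⟩ := hSupp hRad hLift F o hB t3
  obtain ⟨τ4, h4⟩ := hSupp hRad hLift F o hB t4
  have h5 := h1.add_two_pi
  have mono := fun s t σ τ => hMono hEdge hSupp hRad hLift F o hB s t σ τ
  have m12 := mono _ _ _ _ hQ.h12 h1 h2
  have m23 := mono _ _ _ _ hQ.h23 h2 h3
  have m34 := mono _ _ _ _ hQ.h34 h3 h4
  have m45 := mono _ _ _ _ hQ.h41 h4 h5
  have arc := fun s t σ τ => hArc hEdge hSupp hRad hLift hMono F o hB s t σ τ l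
  have hpi := Real.pi_pos
  have A1 := arc _ _ _ _ hQ.h12.le (by linarith [hQ.h23, hQ.h34, hQ.h41]) h1 h2 hl.le hQ.v1
  have A2 := arc _ _ _ _ hQ.h23.le (by linarith [hQ.h12, hQ.h34, hQ.h41]) h2 h3 hl.le hQ.v2
  have A3 := arc _ _ _ _ hQ.h34.le (by linarith [hQ.h12, hQ.h23, hQ.h41]) h3 h4 hl.le hQ.v3
  have A4 := arc _ _ _ _ hQ.h41.le (by linarith [hQ.h12, hQ.h23, hQ.h34]) h4 h5 hl.le hQ.v4
  rw [P_two_pi] at A4
  have memC := (hRad F o hB t3).2.1
  have nAC := P_ne hRad hB (hQ.h12.trans hQ.h23) (by linarith [hQ.h34, hQ.h41])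
  have nBD := P_ne hRad hB (hQ.h23.trans hQ.h34) (by linarith [hQ.h12, hQ.h41])
  have perp := hQ.perp
  have supB := h2.2.2 _ memC
  generalize P F o t1 = A at *
  generalize P F o t2 = B at *
  generalize P F o t3 = C at *
  generalize P F o t4 = D at *
  have hp : 0 < ‖A - C‖ := norm_pos_iff.2 (sub_ne_zero.2 nAC)
  have hq : 0 < ‖B - D‖ := norm_pos_iff.2 (sub_ne_zero.2 nBD)
  set p := ‖A - C‖ with hpd
  set q := ‖B - D‖ with hqd
  set θ := Complex.arg (A - C) with hθ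
  have hre : (A - C).re = p * Real.cos θ := by
    rw [hpd, hθ]; exact (Complex.norm_mul_cos_arg _).symm
  have him : (A - C).im = p * Real.sin θ := by
    rw [hpd, hθ]; exact (Complex.norm_mul_sin_arg _).symm
  have hq2 : q ^ 2 = (B - D).re ^ 2 + (B - D).im ^ 2 := by
    rw [hqd, ← Complex.normSq_eq_norm_sq, Complex.normSq_apply]; ring
  clear_value θ p q
  set c0 := Real.cos θ with hc0
  set s0 := Real.sin θ with hs0
  have hcs : c0 ^ 2 + s0 ^ 2 = 1 := Real.cos_sq_add_sin_sq θ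
  simp only [Complex.sub_re, Complex.sub_im] at hre him perp hq2
  -- coordinates
  obtain ⟨a, ha⟩ : ∃ a : ℝ, a = (A.re - B.re) * c0 + (A.im - B.im) * s0 := ⟨_, rfl⟩
  obtain ⟨c, hc⟩ : ∃ c : ℝ, c = (B.re - C.re) * c0 + (B.im - C.im) * s0 := ⟨_, rfl⟩
  obtain ⟨b, hb⟩ : ∃ b : ℝ, b = -(B.re - A.re) * s0 + (B.im - A.im) * c0 := ⟨_, rfl⟩
  obtain ⟨d, hd⟩ : ∃ d : ℝ, d = -(A.re - D.re) * s0 + (A.im - D.im) * c0 := ⟨_, rfl⟩
  have hac : a + c = p := by
    rw [ha, hc]; linear_combination c0 * hre + s0 * him + p * hcs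
  have hBDx : (B.re - D.re) * c0 + (B.im - D.im) * s0 = 0 := by
    have : p * ((B.re - D.re) * c0 + (B.im - D.im) * s0) = 0 := by
      rw [hre, him] at perp; linear_combination perp
    rcases mul_eq_zero.1 this with h | h
    · exact absurd h hp.ne'
    · exact h
  have hACy : -(A.re - C.re) * s0 + (A.im - C.im) * c0 = 0 := by
    rw [hre, him]; ring
  have hbd : (b + d) ^ 2 = q ^ 2 := by
    have e : b + d = -(B.re - D.re) * s0 + (B.im - D.im) * c0 := by rw [hb, hd]; ring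
    rw [e, hq2]
    linear_combination ((B.re - D.re) ^ 2 + (B.im - D.im) ^ 2) * hcs
      - ((B.re - D.re) * c0 + (B.im - D.im) * s0) * hBDx
  have R1 := hRot _ _ _ (-θ) _ A1
  have R2 := hRot _ _ _ (-θ) _ A2
  have R3 := hRot _ _ _ (-θ) _ A3
  have R4 := hRot _ _ _ (-θ) _ A4
  have w1 : (B - A) * u (-θ) = ⟨-a, b⟩ := by
    apply Complex.ext
    · simp [u, ← hc0, ← hs0, ha]; ring
    · simp [u, ← hc0, ← hs0, hb]; ring
  have w2 : (C - B) * u (-θ) = ⟨-c, -b⟩ := by
    apply Complex.ext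
    · simp [u, ← hc0, ← hs0, hc]; ring
    · simp [u, ← hc0, ← hs0, hb]; linear_combination -hACy
  have w3 : (D - C) * u (-θ) = ⟨c, -d⟩ := by
    apply Complex.ext
    · simp [u, ← hc0, ← hs0, hc]; linear_combination -hBDx
    · simp [u, ← hc0, ← hs0, hd]; linear_combination hACy
  have w4 : (A - D) * u (-θ) = ⟨a, d⟩ := by
    apply Complex.ext
    · simp [u, ← hc0, ← hs0, ha]; linear_combination hBDx
    · simp [u, ← hc0, ← hs0, hd]; ring
  rw [w1] at R1
  rw [w2] at R2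
  rw [w3] at R3
  rw [w4] at R4
  have hR5 : τ1 + 2 * Real.pi + -θ = τ1 + -θ + 2 * Real.pi := by ring
  rw [hR5] at R4
  obtain ⟨hT, hQ1, hQ2⟩ := hSign _ _ _ _ l l l l _ _ _ _ (by linarith) (by linarith) (by linarith) (by linarith) R1 R2 R3 R4
  have hD := hDisc _ _ _ _ _ _ _ _ _ _ hQ1 hQ2
  have hcases : b + d = q ∨ b + d = -q := by
    have : (b + d - q) * (b + d + q) = 0 := by linear_combination hbd
    rcases mul_eq_zero.1 this with h | h
    · left; linarith
    · right; linarith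
  rcases hcases with hbd' | hbd'
  · obtain ⟨e1, e2, e3⟩ := hAlg a b c d l hl (by linarith) (by linarith) (by linarith) hT hD
    have ha0 : 0 < a := by linarith
    have hb0 : 0 < b := by linarith
    rw [← e1, ← e2, ← e3, QQ_rect] at hQ1
    have hz : Real.cos ((τ1 + -θ) / 2) = Real.sin ((τ1 + -θ) / 2) := by
      have h8 : 0 < 8 * a * b ^ 2 * (a + b) := by positivity
      have : (Real.cos ((τ1 + -θ) / 2) - Real.sin ((τ1 + -θ) / 2)) ^ 2 ≤ 0 := by
        by_contra hh; push Not at hh; nlinarith [mul_pos h8 hh]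
      have := pow_eq_zero_iff (two_ne_zero) |>.1 (le_antisymm this (sq_nonneg _))
      linarith
    have hcos : Real.cos (τ1 + -θ) = 0 := by
      have : τ1 + -θ = 2 * ((τ1 + -θ) / 2) := by ring
      rw [this, Real.cos_two_mul']; rw [hz]; ring
    have hsin : Real.sin (τ1 + -θ) = 1 := by
      have : τ1 + -θ = 2 * ((τ1 + -θ) / 2) := by ring
      rw [this, Real.sin_two_mul]
      have := Real.cos_sq_add_sin_sq ((τ1 + -θ) / 2)
      rw [hz] at this ⊢; linarith
    have hut : u τ1 = Complex.I * u θ := by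
      have : τ1 = (τ1 + -θ) + θ := by ring
      rw [this]
      apply Complex.ext
      · simp only [u, Real.cos_add _ θ, hcos, hsin]; simp
      · simp only [u, Real.sin_add _ θ, hcos, hsin]; simp
    refine ⟨u θ, A - a * u θ, a, b, by simpa [u] using hcs, ha0, hb0, e3, by ring, ?_, ?_, ?_, hut⟩
    · have : A - C = (2 * a : ℂ) * u θ := by
        apply Complex.ext
        · simp [u, ← hc0, ← hs0]; rw [hre]; have : p = 2 * a := by linarith
          rw [this]
        · simp [u, ← hc0, ← hs0]; rw [him]; have : p = 2 * a := by linarith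
          rw [this]
      linear_combination -this
    · apply Complex.ext
      · simp [u, ← hc0, ← hs0]
        linear_combination c0 * ha + s0 * hb - (B.re - A.re) * hcs
      · simp [u, ← hc0, ← hs0]
        linear_combination s0 * ha - c0 * hb - (B.im - A.im) * hcs
    · have ha' : a = (A.re - D.re) * c0 + (A.im - D.im) * s0 := by linear_combination ha - hBDx
      have hd' : b = -(A.re - D.re) * s0 + (A.im - D.im) * c0 := by rw [e2]; exact hd
      apply Complex.ext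
      · simp [u, ← hc0, ← hs0]
        linear_combination c0 * ha' - s0 * hd' + (A.re - D.re) * hcs
      · simp [u, ← hc0, ← hs0]
        linear_combination s0 * ha' + c0 * hd' + (A.im - D.im) * hcs
  · exfalso
    obtain ⟨e1, e2, e3⟩ := hAlg a (-b) c (-d) l hl (by linarith) (by linarith) (by linarith)
      (by rw [TT_refl]; exact hT) (by rw [TT_refl, PI_refl]; exact hD)
    have ha0 : 0 < a := by linarith
    have hb0 : b < 0 := by linarith
    have hdb : d = b := by linarith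
    rw [← e1, hdb, ← e3, QQ_rect'] at hQ2
    have hz : Real.cos ((τ2 + -θ) / 2) = - Real.sin ((τ2 + -θ) / 2) := by
      have hb2 : 0 < b ^ 2 := by nlinarith
      have hab : 0 < a - b := by linarith
      have h8 : 0 < 8 * a * b ^ 2 * (a - b) := mul_pos (mul_pos (mul_pos (by norm_num) ha0) hb2) hab
      have : (Real.cos ((τ2 + -θ) / 2) + Real.sin ((τ2 + -θ) / 2)) ^ 2 ≤ 0 := by
        by_contra hh; push Not at hh; nlinarith [mul_pos h8 hh]
      have := pow_eq_zero_iff (two_ne_zero) |>.1 (le_antisymm this (sq_nonneg _))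
      linarith
    have hcos : Real.cos (τ2 + -θ) = 0 := by
      have : τ2 + -θ = 2 * ((τ2 + -θ) / 2) := by ring
      rw [this, Real.cos_two_mul']; rw [hz]; ring
    have hsin : Real.sin (τ2 + -θ) = -1 := by
      have : τ2 + -θ = 2 * ((τ2 + -θ) / 2) := by ring
      rw [this, Real.sin_two_mul]
      have := Real.cos_sq_add_sin_sq ((τ2 + -θ) / 2)
      rw [hz] at this ⊢; linarith
    have hut : u τ2 = ⟨s0, -c0⟩ := by
      have : τ2 = (τ2 + -θ) + θ := by ring
      rw [this]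
      apply Complex.ext
      · simp only [u, Real.cos_add _ θ, hcos, hsin]; simp [hs0]
      · simp only [u, Real.sin_add _ θ, hcos, hsin]; simp [hc0]
    rw [hut] at supB
    simp only [cr, Complex.sub_re, Complex.sub_im] at supB
    have : c ≤ 0 := by rw [hc]; linarith
    linarith

end Pool.Agent.Q140.QUAD
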