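import Pool.Agent.Q140.QUAD.Stmts

set_option autoImplicit false

namespace Pool.Agent.Q140.QUAD

/-- the core: with `p, q > 0`, `E ≥ 0` and the bound on `D`, everything vanishes -/
theorem taskAlg_core (p q x y E D G : ℝ) (hp : 0 < p) (hq : 0 < q) (hE0 : 0 ≤ E)
    (hD1 : D = E * (4 * p * q + E + 2 * (x ^ 2 + y ^ 2)) + (x ^ 2 + y ^ 2) ^ 2 +
      4 * (p + q) * (q * x ^ 2 + p * y ^ 2))
    (h1 : D ≤ 4 * G) (h2 : G * D ≤ 4 * (p ^ 2 * q ^ 2 * (x ^ 2 * y ^ 2))) :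
    x = 0 ∧ y = 0 ∧ E = 0 := by
  have hpq0 : 0 < p * q := mul_pos hp hq
  have hR0 : 0 ≤ q * x ^ 2 + p * y ^ 2 := by positivity
  have hA0 : 0 ≤ E * (4 * p * q + E + 2 * (x ^ 2 + y ^ 2)) := by positivity
  have hD2 : 4 * (p + q) * (q * x ^ 2 + p * y ^ 2) ≤ D := by
    rw [hD1]
    have := sq_nonneg (x ^ 2 + y ^ 2)
    linarith
  have hD0 : 0 ≤ D := le_trans (by positivity) hD2
  have h3 : D ^ 2 ≤ 16 * (p ^ 2 * q ^ 2 * (x ^ 2 * y ^ 2)) := by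
    have := mul_le_mul_of_nonneg_right h1 hD0
    have e : D ^ 2 = D * D := by ring
    have e' : 4 * G * D = 4 * (G * D) := by ring
    rw [e]; rw [e'] at this; linarith
  have h4 : 256 * (p ^ 2 * q ^ 2 * (x ^ 2 * y ^ 2)) ≤ D ^ 2 := by
    have h5 : (4 * (p + q) * (q * x ^ 2 + p * y ^ 2)) ^ 2 ≤ D ^ 2 :=
      pow_le_pow_left₀ (by positivity) hD2 2
    have h6 : 4 * (p * q) ≤ (p + q) ^ 2 := by
      have := sq_nonneg (p - q)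
      have e : (p + q) ^ 2 = (p - q) ^ 2 + 4 * (p * q) := by ring
      rw [e]; linarith
    have h7 : 4 * ((p * q) * (x ^ 2 * y ^ 2)) ≤ (q * x ^ 2 + p * y ^ 2) ^ 2 := by
      have := sq_nonneg (q * x ^ 2 - p * y ^ 2)
      have e : (q * x ^ 2 + p * y ^ 2) ^ 2 = (q * x ^ 2 - p * y ^ 2) ^ 2 +
        4 * ((p * q) * (x ^ 2 * y ^ 2)) := by ring
      rw [e]; linarith
    calc 256 * (p ^ 2 * q ^ 2 * (x ^ 2 * y ^ 2))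
        = 16 * ((4 * (p * q)) * (4 * ((p * q) * (x ^ 2 * y ^ 2)))) := by ring
      _ ≤ 16 * ((p + q) ^ 2 * (q * x ^ 2 + p * y ^ 2) ^ 2) := by
          apply mul_le_mul_of_nonneg_left _ (by norm_num)
          exact mul_le_mul h6 h7 (by positivity) (by positivity)
      _ = (4 * (p + q) * (q * x ^ 2 + p * y ^ 2)) ^ 2 := by ring
      _ ≤ D ^ 2 := h5
  have h8 : p ^ 2 * q ^ 2 * (x ^ 2 * y ^ 2) = 0 := by
    have : 0 ≤ p ^ 2 * q ^ 2 * (x ^ 2 * y ^ 2) := by positivity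
    exact le_antisymm (by linarith) this
  have h9 : D = 0 := by
    have : D ^ 2 ≤ 0 := by rw [h8] at h3; linarith
    exact pow_eq_zero_iff (two_ne_zero) |>.1 (le_antisymm this (sq_nonneg D))
  have h10 : q * x ^ 2 + p * y ^ 2 = 0 := by
    have h11 : 4 * (p + q) * (q * x ^ 2 + p * y ^ 2) ≤ 0 := h9 ▸ hD2
    have h12 : 0 < 4 * (p + q) := by positivity
    exact le_antisymm (nonpos_of_mul_nonpos_right h11 h12) hR0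
  have hqx : 0 ≤ q * x ^ 2 := by positivity
  have hpy : 0 ≤ p * y ^ 2 := by positivity
  have hx : x = 0 := by
    have h13 : q * x ^ 2 = 0 := le_antisymm (by linarith) hqx
    rcases mul_eq_zero.1 h13 with h | h
    · exact absurd h hq.ne'
    · exact pow_eq_zero_iff (two_ne_zero) |>.1 h
  have hy : y = 0 := by
    have h13 : p * y ^ 2 = 0 := le_antisymm (by linarith) hpy
    rcases mul_eq_zero.1 h13 with h | h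
    · exact absurd h hp.ne'
    · exact pow_eq_zero_iff (two_ne_zero) |>.1 h
  refine ⟨hx, hy, ?_⟩
  rw [h9, hx, hy] at hD1
  have h14 : E * (4 * p * q + E) = 0 := by
    have e : E * (4 * p * q + E + 2 * ((0:ℝ) ^ 2 + 0 ^ 2)) + ((0:ℝ) ^ 2 + 0 ^ 2) ^ 2 +
      4 * (p + q) * (q * 0 ^ 2 + p * 0 ^ 2) = E * (4 * p * q + E) := by ring
    rw [e] at hD1
    exact hD1.symm
  rcases mul_eq_zero.1 h14 with h | h
  · exact h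
  · exfalso
    have : 0 < 4 * p * q := by positivity
    linarith

theorem TaskAlg_proof : TaskAlg := by
  intro a b c d l hl hp hq hpq hT hP
  have e1 : 16 * TT ⟨-a, b⟩ ⟨-c, -b⟩ ⟨c, -d⟩ ⟨a, d⟩ l l l l =
      ((4 * l ^ 2 - (a + c) ^ 2 - (b + d) ^ 2 - ((a - c) ^ 2 + (b - d) ^ 2)) ^ 2
      - 4 * (a + c) ^ 2 * (a - c) ^ 2 - 4 * (b + d) ^ 2 * (b - d) ^ 2) -
      8 * ((a + c) ^ 2 * (b + d) ^ 2 - 4 * l ^ 2 * ((a - c) ^ 2 + (b - d) ^ 2)) := by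
    simp only [TT]; ring
  have e2 : 256 * PI ⟨-a, b⟩ ⟨-c, -b⟩ ⟨c, -d⟩ ⟨a, d⟩ l l l l =
      ((4 * l ^ 2 - (a + c) ^ 2 - (b + d) ^ 2 - ((a - c) ^ 2 + (b - d) ^ 2)) ^ 2
      - 4 * (a + c) ^ 2 * (a - c) ^ 2 - 4 * (b + d) ^ 2 * (b - d) ^ 2) ^ 2 -
      64 * (a + c) ^ 2 * (b + d) ^ 2 * (a - c) ^ 2 * (b - d) ^ 2 := by
    simp only [PI]; ring
  obtain ⟨T, hTd⟩ : ∃ T : ℝ, T = TT ⟨-a, b⟩ ⟨-c, -b⟩ ⟨c, -d⟩ ⟨a, d⟩ l l l l := ⟨_, rfl⟩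
  obtain ⟨Q, hQd⟩ : ∃ Q : ℝ, Q = PI ⟨-a, b⟩ ⟨-c, -b⟩ ⟨c, -d⟩ ⟨a, d⟩ l l l l := ⟨_, rfl⟩
  rw [← hTd] at hT hP e1
  rw [← hQd] at hP e2
  clear hTd hQd
  obtain ⟨p, hpd⟩ : ∃ p : ℝ, p = a + c := ⟨_, rfl⟩
  obtain ⟨q, hqd⟩ : ∃ q : ℝ, q = b + d := ⟨_, rfl⟩
  obtain ⟨x, hxd⟩ : ∃ x : ℝ, x = a - c := ⟨_, rfl⟩
  obtain ⟨y, hyd⟩ : ∃ y : ℝ, y = b - d := ⟨_, rfl⟩
  rw [← hpd, ← hqd, ← hxd, ← hyd] at e1 e2
  rw [← hpd] at hp hpq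
  rw [← hqd] at hq hpq
  obtain ⟨Z, hZ⟩ : ∃ Z : ℝ, Z = (4 * l ^ 2 - p ^ 2 - q ^ 2 - (x ^ 2 + y ^ 2)) ^ 2
      - 4 * p ^ 2 * x ^ 2 - 4 * q ^ 2 * y ^ 2 := ⟨_, rfl⟩
  obtain ⟨G, hG⟩ : ∃ G : ℝ, G = p ^ 2 * q ^ 2 - 4 * l ^ 2 * (x ^ 2 + y ^ 2) := ⟨_, rfl⟩
  rw [← hZ] at e1 e2
  rw [← hG] at e1
  have key : x = 0 ∧ y = 0 ∧ 4 * l ^ 2 - (p + q) ^ 2 = 0 := by
    refine taskAlg_core p q x y (4 * l ^ 2 - (p + q) ^ 2) (Z - 4 * G) G hp hq ?_ ?_ ?_ ?_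
    · have h : (p + q) ^ 2 ≤ (2 * l) ^ 2 := pow_le_pow_left₀ (by positivity) hpq 2
      have e : (2 * l) ^ 2 = 4 * l ^ 2 := by ring
      rw [e] at h; linarith
    · rw [hZ, hG]; ring
    · linarith
    · have h : 256 * Q ≤ 256 * T ^ 2 := by linarith
      have e3 : 256 * T ^ 2 = (16 * T) ^ 2 := by ring
      rw [e3, e1, e2] at h
      have e4 : (Z - 8 * G) ^ 2 = Z ^ 2 - 16 * (G * (Z - 4 * G)) := by ring
      have e5 : 64 * p ^ 2 * q ^ 2 * x ^ 2 * y ^ 2 = 64 * (p ^ 2 * q ^ 2 * (x ^ 2 * y ^ 2)) := by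
        ring
      rw [e4, e5] at h
      linarith
  obtain ⟨hx, hy, hE⟩ := key
  have hsum : p + q = 2 * l := by
    have h15 : (p + q) ^ 2 = (2 * l) ^ 2 := by
      have e : (2 * l) ^ 2 = 4 * l ^ 2 := by ring
      rw [e]; linarith
    exact (pow_left_inj₀ (by positivity) (by positivity) two_ne_zero).1 h15
  refine ⟨by linarith, by linarith, by linarith⟩

end Pool.Agent.Q140.QUAD
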