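import Pool.Agent.Q140.QUAD.Stmts

namespace Pool.Agent.Q140.QUAD

open Set

/-- support angles inside `[σ, τ]` at every parameter of `[s, t]` -/
private theorem arc_supp (hsupp : TaskSupp) (hrad : TaskRad) (hlift : TaskLift) (hedge : TaskEdge)
    (hmono : TaskMono) (F : Set ℂ) (o : ℂ) (hF : Body F o) (s t σ τ : ℝ) (hst : s < t)
    (hs : Supp F o s σ) (ht : Supp F o t τ) (x : ℝ) (hx : x ∈ Icc s t) :
    ∃ ξ, Supp F o x ξ ∧ σ ≤ ξ ∧ ξ ≤ τ := by
  have hm := hmono hedge hsupp hrad hlift F o hF
  rcases eq_or_lt_of_le hx.1 with h | h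
  · subst h
    exact ⟨σ, hs, le_refl _, hm _ _ _ _ hst hs ht⟩
  · rcases eq_or_lt_of_le hx.2 with h' | h'
    · subst h'
      exact ⟨τ, ht, hm _ _ _ _ h hs ht, le_refl _⟩
    · obtain ⟨ξ, hξ⟩ := hsupp hrad hlift F o hF x
      exact ⟨ξ, hξ, hm _ _ _ _ h hs hξ, hm _ _ _ _ h' hξ ht⟩

private theorem arc_step (hsupp : TaskSupp) (hrad : TaskRad) (hlift : TaskLift) (hedge : TaskEdge)
    (hmono : TaskMono) (F : Set ℂ) (o : ℂ) (hF : Body F o) (s t σ τ : ℝ) (hst : s < t)
    (hs : Supp F o s σ) (ht : Supp F o t τ) (p q r : ℝ)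
    (h : ∀ θ, σ ≤ θ → θ ≤ τ → p * Real.cos θ + q * Real.sin θ + r ≤ 0) (x y : ℝ)
    (hx : x ∈ Icc s t) (hy : y ∈ Icc s t) (hxy : x ≤ y) (hπ : y < x + Real.pi) :
    r * ‖P F o y - P F o x‖ ≤ -(p * (P F o y - P F o x).re + q * (P F o y - P F o x).im) := by
  rcases eq_or_lt_of_le hxy with rfl | hxy
  · simp
  · obtain ⟨ξ, hξ, h1, _⟩ := arc_supp hsupp hrad hlift hedge hmono F o hF s t σ τ hst hs ht x hx
    obtain ⟨η, hη, _, h2⟩ := arc_supp hsupp hrad hlift hedge hmono F o hF s t σ τ hst hs ht y hy
    obtain ⟨θ, ρ, hρ, h3, h4, h5⟩ := hedge hrad F o hF x y ξ η hxy hπ hξ hη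
    have h6 := h θ (h1.trans h3) (h4.trans h2)
    have h7 : ‖P F o y - P F o x‖ = ρ := by
      rw [h5, norm_mul, Complex.norm_real, Real.norm_eq_abs, abs_of_pos hρ]
      have : ‖u θ‖ = 1 := by
        have : ‖u θ‖ ^ 2 = 1 := by
          rw [← Complex.normSq_eq_norm_sq, Complex.normSq_apply]
          show Real.cos θ * Real.cos θ + Real.sin θ * Real.sin θ = 1
          nlinarith [Real.sin_sq_add_cos_sq θ]
        nlinarith [norm_nonneg (u θ)]
      rw [this, mul_one]
    have h8 : (P F o y - P F o x).re = ρ * Real.cos θ := by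
      rw [h5, Complex.re_ofReal_mul]; rfl
    have h9 : (P F o y - P F o x).im = ρ * Real.sin θ := by
      rw [h5, Complex.im_ofReal_mul]; rfl
    rw [h7, h8, h9]
    nlinarith [mul_le_mul_of_nonneg_left h6 hρ.le]

theorem TaskArc_proof : TaskArc := by
  intro hedge hsupp hrad hlift hmono F o hF s t σ τ ℓ hst ht2 hs ht hℓ hvar p q r h
  rcases eq_or_lt_of_le hst with rfl | hst'
  · have h0 : eVariationOn (P F o) (Icc s s) = 0 := by
      rw [Icc_self]
      exact eVariationOn.subsingleton _ subsingleton_singleton
    rw [h0] at hvar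
    have : ℓ ≤ 0 := ENNReal.ofReal_eq_zero.1 hvar.symm
    have hl : ℓ = 0 := le_antisymm this hℓ
    simp [hl]
  · have hpi := Real.pi_pos
    set g : ℝ → ℝ := fun x => -(p * (P F o x).re + q * (P F o x).im) with hg
    have hstep : ∀ x y, x ∈ Icc s t → y ∈ Icc s t → x ≤ y → y < x + Real.pi →
        r * ‖P F o y - P F o x‖ ≤ g y - g x := by
      intro x y hx hy hxy hπ
      have := arc_step hsupp hrad hlift hedge hmono F o hF s t σ τ hst' hs ht p q r h x y hx hy hxy hπ
      refine this.trans (le_of_eq ?_)
      simp only [hg, Complex.sub_re, Complex.sub_im]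
      ring
    have hfin : r * ℓ ≤ g t - g s := by
      rcases lt_or_ge 0 r with hr | hr
      · -- all pairs
        have hall : ∀ x ∈ Icc s t, ∀ y ∈ Icc s t, x ≤ y → r * ‖P F o y - P F o x‖ ≤ g y - g x := by
          intro x hx y hy hxy
          have hd : y - x ≤ 2 * Real.pi := by linarith [hx.1, hy.2]
          set d := (y - x) / 3 with hdd
          have hd0 : 0 ≤ d := by rw [hdd]; linarith
          have hd1 : d < Real.pi := by rw [hdd]; linarith
          have e1 : x + d ∈ Icc s t := ⟨by linarith [hx.1], by linarith [hy.2]⟩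
          have e2 : x + 2 * d ∈ Icc s t := ⟨by linarith [hx.1], by linarith [hy.2]⟩
          have k1 := hstep x (x + d) hx e1 (by linarith) (by linarith)
          have k2 := hstep (x + d) (x + 2 * d) e1 e2 (by linarith) (by linarith)
          have k3 := hstep (x + 2 * d) y e2 hy (by linarith) (by linarith)
          have k4 : ‖P F o y - P F o x‖ ≤ ‖P F o (x + d) - P F o x‖ +
              ‖P F o (x + 2 * d) - P F o (x + d)‖ + ‖P F o y - P F o (x + 2 * d)‖ := by
            have : P F o y - P F o x = (P F o (x + d) - P F o x) +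
              (P F o (x + 2 * d) - P F o (x + d)) + (P F o y - P F o (x + 2 * d)) := by ring
            rw [this]
            exact norm_add₃_le
          have k5 := mul_le_mul_of_nonneg_left k4 hr.le
          linarith
        have hφ : MonotoneOn (fun x => g x / r) (Icc s t) := by
          intro x hx y hy hxy
          have := hall x hx y hy hxy
          have h2 : 0 ≤ r * ‖P F o y - P F o x‖ := by positivity
          show g x / r ≤ g y / r
          gcongr
          linarith
        have h1 := hφ.eVariationOn_le (left_mem_Icc.2 hst) (right_mem_Icc.2 hst)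
        rw [inter_self] at h1
        have h2 : eVariationOn (P F o) (Icc s t) ≤ eVariationOn (fun x => g x / r) (Icc s t) := by
          refine iSup_le fun ⟨n, v, hv, hvs⟩ => ?_
          refine le_trans ?_ (eVariationOn.sum_le (f := fun x => g x / r) (n := n) hv (fun i => hvs i))
          refine Finset.sum_le_sum fun i _ => ?_
          rw [edist_dist, edist_dist]
          apply ENNReal.ofReal_le_ofReal
          rw [dist_eq_norm, Real.dist_eq]
          have h3 := hall (v i) (hvs i) (v (i + 1)) (hvs (i + 1)) (hv (Nat.le_succ i))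
          have h4 : ‖P F o (v (i + 1)) - P F o (v i)‖ ≤ (g (v (i + 1)) - g (v i)) / r := by
            rw [le_div_iff₀ hr]; linarith
          refine h4.trans (le_trans (le_of_eq ?_) (le_abs_self _))
          ring
        rw [hvar] at h2
        have h3 := h2.trans h1
        have h4 : 0 ≤ g t / r - g s / r := sub_nonneg.2 (hφ (left_mem_Icc.2 hst) (right_mem_Icc.2 hst) hst)
        have h5 : ℓ ≤ g t / r - g s / r := (ENNReal.ofReal_le_ofReal_iff h4).1 h3
        rw [← sub_div, le_div_iff₀ hr] at h5
        linarith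
      · set d := (t - s) / 3 with hdd
        have hd0 : 0 ≤ d := by rw [hdd]; linarith
        have hd1 : d < Real.pi := by rw [hdd]; linarith
        have e1 : s + d ∈ Icc s t := ⟨by linarith, by linarith⟩
        have e2 : s + 2 * d ∈ Icc s t := ⟨by linarith, by linarith⟩
        have k1 := hstep s (s + d) (left_mem_Icc.2 hst) e1 (by linarith) (by linarith)
        have k2 := hstep (s + d) (s + 2 * d) e1 e2 (by linarith) (by linarith)
        have k3 := hstep (s + 2 * d) t e2 (right_mem_Icc.2 hst) (by linarith) (by linarith)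
        have k4 : ‖P F o (s + d) - P F o s‖ +
            ‖P F o (s + 2 * d) - P F o (s + d)‖ + ‖P F o t - P F o (s + 2 * d)‖ ≤ ℓ := by
          have a1 := eVariationOn.Icc_add_Icc (P F o) (s := univ) (a := s) (b := s + d)
            (c := s + 2 * d) (by linarith) (by linarith) (mem_univ _)
          have a2 := eVariationOn.Icc_add_Icc (P F o) (s := univ) (a := s) (b := s + 2 * d)
            (c := t) (by linarith) (by linarith) (mem_univ _)
          simp only [univ_inter] at a1 a2
          have b1 : edist (P F o (s + d)) (P F o s) ≤ eVariationOn (P F o) (Icc s (s + d)) :=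
            eVariationOn.edist_le _ (right_mem_Icc.2 (by linarith)) (left_mem_Icc.2 (by linarith))
          have b2 : edist (P F o (s + 2 * d)) (P F o (s + d)) ≤
              eVariationOn (P F o) (Icc (s + d) (s + 2 * d)) :=
            eVariationOn.edist_le _ (right_mem_Icc.2 (by linarith)) (left_mem_Icc.2 (by linarith))
          have b3 : edist (P F o t) (P F o (s + 2 * d)) ≤ eVariationOn (P F o) (Icc (s + 2 * d) t) :=
            eVariationOn.edist_le _ (right_mem_Icc.2 (by linarith)) (left_mem_Icc.2 (by linarith))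
          have c : edist (P F o (s + d)) (P F o s) + edist (P F o (s + 2 * d)) (P F o (s + d)) +
              edist (P F o t) (P F o (s + 2 * d)) ≤ ENNReal.ofReal ℓ := by
            rw [← hvar, ← a2, ← a1]
            exact add_le_add (add_le_add b1 b2) b3
          rw [edist_dist, edist_dist, edist_dist, ← ENNReal.ofReal_add dist_nonneg dist_nonneg,
            ← ENNReal.ofReal_add (add_nonneg dist_nonneg dist_nonneg) dist_nonneg,
            ENNReal.ofReal_le_ofReal_iff hℓ] at c
          simpa only [dist_eq_norm] using c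
        have k5 := mul_le_mul_of_nonpos_left k4 hr
        linarith
    have e : p * (P F o t - P F o s).re + q * (P F o t - P F o s).im = -(g t - g s) := by
      simp only [hg, Complex.sub_re, Complex.sub_im]
      ring
    rw [e]
    linarith

end Pool.Agent.Q140.QUAD
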