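import Pool.Agent.Q140.QUAD.Stmts

set_option autoImplicit false

namespace Pool.Agent.Q140.QUAD

open Set

private theorem corner_u_shift (θ : ℝ) (k : ℤ) : u (θ + 2 * Real.pi * k) = u θ := by
  have h : θ + 2 * Real.pi * k = θ + k * (2 * Real.pi) := by ring
  unfold u
  rw [h, Real.cos_add_int_mul_two_pi, Real.sin_add_int_mul_two_pi]

private theorem corner_P_shift (F : Set ℂ) (o : ℂ) (t : ℝ) (k : ℤ) : P F o (t + 2 * Real.pi * k) = P F o t := by
  unfold P rad
  rw [corner_u_shift]

private theorem corner_cr_sub (z w v : ℂ) : cr z (w - v) = cr z w - cr z v := by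
  unfold cr
  simp only [Complex.sub_re, Complex.sub_im]
  ring

/-- the basic inequality -/
private theorem corner_basic (a b : ℝ) (h0 : 0 ≤ b) (hab : b ≤ a) (h : a ^ 2 + b ^ 2 = 1) :
    1 ≤ a + (√2 - 1) * b := by
  have h2 : √2 ^ 2 = 2 := Real.sq_sqrt (by norm_num)
  have h1 : 1 ≤ √2 := by
    rw [show (1 : ℝ) = √1 by simp]
    exact Real.sqrt_le_sqrt (by norm_num)
  have h3 : 0 ≤ (√2 - 1) * b := mul_nonneg (by linarith) h0
  have h4 : 1 ≤ (a + (√2 - 1) * b) ^ 2 := by
    have h5 : (a + (√2 - 1) * b) ^ 2 - 1 = 2 * ((√2 - 1) * b) * (a - b) := by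
      have : (a + (√2 - 1) * b) ^ 2 - (a ^ 2 + b ^ 2) - 2 * ((√2 - 1) * b) * (a - b)
          = (√2 ^ 2 - 2) * b ^ 2 := by ring
      rw [h2, h] at this
      linarith
    have h6 : 0 ≤ 2 * ((√2 - 1) * b) * (a - b) := mul_nonneg (by linarith) (by linarith)
    linarith
  nlinarith [h4, h3, h0, hab]

private theorem corner_first (h : ℝ) (h0 : 0 ≤ h) (h1 : h ≤ Real.pi / 4) :
    0 ≤ Real.sin h ∧ 1 ≤ Real.cos h + (√2 - 1) * Real.sin h := by
  have hs : 0 ≤ Real.sin h := Real.sin_nonneg_of_nonneg_of_le_pi h0 (by linarith [Real.pi_pos])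
  have hc : Real.sin h ≤ Real.cos h := by
    rw [← Real.sin_pi_div_two_sub]
    exact Real.sin_le_sin_of_le_of_le_pi_div_two (by linarith [Real.pi_pos]) (by linarith)
      (by linarith)
  exact ⟨hs, corner_basic _ _ hs hc (by rw [add_comm]; exact Real.sin_sq_add_cos_sq h)⟩

private theorem corner_second (h : ℝ) (h0 : Real.pi / 4 ≤ h) (h1 : h ≤ Real.pi / 2) :
    0 ≤ Real.cos h ∧ 1 ≤ Real.sin h + (√2 - 1) * Real.cos h := by
  have := corner_first (Real.pi / 2 - h) (by linarith) (by linarith)
  rw [Real.sin_pi_div_two_sub, Real.cos_pi_div_two_sub] at this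
  exact this

/-- a point of `F` with support angle `φ` -/
private theorem corner_exists_supp (hR : TaskRad) (hL : TaskLift) (F : Set ℂ) (o : ℂ) (hF : Body F o) (φ : ℝ) :
    ∃ v, Supp F o v φ := by
  have hoF : o ∈ F := interior_subset hF.int
  have hcont : Continuous (fun X : ℂ => cr (u φ) X) := by
    unfold cr
    fun_prop
  obtain ⟨R, hRF, hmin⟩ := hF.compact.exists_isMinOn ⟨o, hoF⟩ hcont.continuousOn
  have hmin' : ∀ X ∈ F, cr (u φ) R ≤ cr (u φ) X := fun X hX => hmin hX
  -- strictness at `o`
  have hlt : cr (u φ) R < cr (u φ) o := by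
    have hg : Continuous (fun δ : ℝ => o - (δ : ℂ) * (Complex.I * u φ)) := by fun_prop
    have hn : (fun δ : ℝ => o - (δ : ℂ) * (Complex.I * u φ)) ⁻¹' F ∈ nhds (0 : ℝ) := by
      apply hg.continuousAt.preimage_mem_nhds
      simp only [Complex.ofReal_zero, zero_mul, sub_zero]
      exact mem_interior_iff_mem_nhds.1 hF.int
    obtain ⟨ε, hε, hb⟩ := Metric.mem_nhds_iff.1 hn
    have hm : (ε / 2) ∈ Metric.ball (0 : ℝ) ε := by
      rw [Metric.mem_ball, Real.dist_eq, sub_zero, abs_of_pos (by linarith)]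
      linarith
    have hX := hmin' _ (hb hm)
    have hcs := Real.sin_sq_add_cos_sq φ
    have hval : cr (u φ) (o - ((ε / 2 : ℝ) : ℂ) * (Complex.I * u φ)) = cr (u φ) o - ε / 2 := by
      unfold cr u
      simp
      have : Real.cos φ * (o.im - ε / 2 * Real.cos φ) - Real.sin φ * (o.re + ε / 2 * Real.sin φ) =
        Real.cos φ * o.im - Real.sin φ * o.re - ε / 2 * (Real.sin φ ^ 2 + Real.cos φ ^ 2) := by ring
      rw [hcs] at this
      linarith
    rw [hval] at hX
    linarith
  have hne : R ≠ o := by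
    rintro rfl
    exact lt_irrefl _ hlt
  set ρ : ℝ := ‖R - o‖ with hρ
  set v₀ : ℝ := (R - o).arg with hv₀
  have hRo : R - o = (ρ : ℂ) * u v₀ := by
    apply Complex.ext
    · simp [u, hρ, hv₀, Complex.norm_mul_cos_arg]
    · simp [u, hρ, hv₀, Complex.norm_mul_sin_arg]
  have hρ0 : 0 < ρ := norm_pos_iff.2 (sub_ne_zero.2 hne)
  obtain ⟨hrad, hPF, hbey⟩ := hR F o hF v₀
  have hρle : ρ ≤ rad F o v₀ := by
    by_contra hc
    push Not at hc
    apply hbey ρ hc
    rw [← hRo]
    simpa using hRF
  have hcrneg : cr (u φ) (u v₀) < 0 := by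
    have h1 : cr (u φ) R - cr (u φ) o = ρ * cr (u φ) (u v₀) := by
      rw [← corner_cr_sub, hRo]
      unfold cr
      simp
      ring
    by_contra hc
    push Not at hc
    have := mul_nonneg hρ0.le hc
    linarith
  have hPR : P F o v₀ = R := by
    have h1 : cr (u φ) (P F o v₀) - cr (u φ) R = (rad F o v₀ - ρ) * cr (u φ) (u v₀) := by
      have : R = o + (ρ : ℂ) * u v₀ := by rw [← hRo]; ring
      rw [this]
      unfold P cr
      simp
      ring
    have h2 := hmin' _ hPF
    have h3 : rad F o v₀ = ρ := by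
      by_contra hne'
      have h4 : 0 < rad F o v₀ - ρ := by
        rcases lt_or_eq_of_le hρle with h | h
        · linarith
        · exact absurd h.symm hne'
      have := mul_neg_of_pos_of_neg h4 hcrneg
      linarith
    unfold P
    rw [h3, ← hRo]
    ring
  obtain ⟨k, hk1, hk2, hk3⟩ := hL hR F o hF v₀ φ (fun x hx => by
    rw [hPR, corner_cr_sub]
    linarith [hmin' x hx])
  refine ⟨v₀ + 2 * Real.pi * ((-k : ℤ) : ℝ), ?_, ?_, ?_⟩
  · push_cast
    linarith
  · push_cast
    linarith
  · intro x hx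
    rw [corner_P_shift]
    have := hk3 x hx
    rwa [corner_u_shift] at this

theorem TaskCorner_proof : TaskCorner := by
  intro hArc hEdge hSupp hRad hLift hMono F o hF s t φ x y hst hts hs ht hx hy hP hvar
  obtain ⟨v, hv⟩ := corner_exists_supp hRad hLift F o hF (φ + Real.pi / 4)
  have hpi := Real.pi_pos
  have hsv : s ≤ v := by
    by_contra hc
    push Not at hc
    have := hMono hEdge hSupp hRad hLift F o hF v s _ _ hc hv hs
    linarith
  have hvt : v ≤ t := by
    by_contra hc
    push Not at hc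
    have := hMono hEdge hSupp hRad hLift F o hF t v _ _ hc ht hv
    linarith
  have hadd := eVariationOn.Icc_add_Icc (P F o) (s := univ) hsv hvt (mem_univ v)
  simp only [univ_inter] at hadd
  rw [hvar] at hadd
  have hf1 : eVariationOn (P F o) (Icc s v) ≠ ⊤ := by
    intro h
    rw [h] at hadd
    simp at hadd
  have hf2 : eVariationOn (P F o) (Icc v t) ≠ ⊤ := by
    intro h
    rw [h] at hadd
    simp at hadd
  set l1 := (eVariationOn (P F o) (Icc s v)).toReal with hl1
  set l2 := (eVariationOn (P F o) (Icc v t)).toReal with hl2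
  have e1 : eVariationOn (P F o) (Icc s v) = ENNReal.ofReal l1 := (ENNReal.ofReal_toReal hf1).symm
  have e2 : eVariationOn (P F o) (Icc v t) = ENNReal.ofReal l2 := (ENNReal.ofReal_toReal hf2).symm
  have hsum : l1 + l2 = x + y := by
    have := congrArg ENNReal.toReal hadd
    rw [ENNReal.toReal_add hf1 hf2, ENNReal.toReal_ofReal (by linarith)] at this
    exact this
  have hl1' : 0 ≤ l1 := ENNReal.toReal_nonneg
  have hl2' : 0 ≤ l2 := ENNReal.toReal_nonneg
  have A1 := hArc hEdge hSupp hRad hLift hMono F o hF s v φ (φ + Real.pi / 4) l1 hsv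
    (by linarith) hs hv hl1' e1
  have A2 := hArc hEdge hSupp hRad hLift hMono F o hF v t (φ + Real.pi / 4) (φ + Real.pi / 2) l2 hvt
    (by linarith) hv ht hl2' e2
  set w1 := P F o v - P F o s with hw1
  set w2 := P F o t - P F o v with hw2
  have hw : w1 + w2 = (x : ℂ) * u φ + (y : ℂ) * u (φ + Real.pi / 2) := by
    rw [← hP, hw1, hw2]
    ring
  set C := Real.cos φ with hC
  set S := Real.sin φ with hS
  have hCS : S ^ 2 + C ^ 2 = 1 := Real.sin_sq_add_cos_sq φ
  have hre : w1.re + w2.re = x * C - y * S := by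
    have := congrArg Complex.re hw
    simp [u, Real.cos_add_pi_div_two, Real.sin_add_pi_div_two] at this
    rw [this]
    ring
  have him : w1.im + w2.im = x * S + y * C := by
    have := congrArg Complex.im hw
    simp [u, Real.cos_add_pi_div_two, Real.sin_add_pi_div_two] at this
    rw [this]
  -- the four inequalities
  have b1 : 0 ≤ -(w1.re * S) + w1.im * C := by
    have := A1 S (-C) 0 (fun θ h1 h2 => by
      have := (corner_first (θ - φ) (by linarith) (by linarith)).1
      rw [Real.sin_sub] at this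
      linarith)
    linarith
  have b2 : 0 ≤ w2.re * C + w2.im * S := by
    have := A2 (-C) (-S) 0 (fun θ h1 h2 => by
      have := (corner_second (θ - φ) (by linarith) (by linarith)).1
      rw [Real.cos_sub] at this
      linarith)
    linarith
  have b3 : l1 ≤ (w1.re * C + w1.im * S) + (√2 - 1) * (-(w1.re * S) + w1.im * C) := by
    have := A1 (-C + (√2 - 1) * S) (-S - (√2 - 1) * C) 1 (fun θ h1 h2 => by
      have := (corner_first (θ - φ) (by linarith) (by linarith)).2
      rw [Real.sin_sub, Real.cos_sub] at this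
      linarith)
    linarith
  have b4 : l2 ≤ (-(w2.re * S) + w2.im * C) + (√2 - 1) * (w2.re * C + w2.im * S) := by
    have := A2 (S - (√2 - 1) * C) (-C - (√2 - 1) * S) 1 (fun θ h1 h2 => by
      have := (corner_second (θ - φ) (by linarith) (by linarith)).2
      rw [Real.sin_sub, Real.cos_sub] at this
      linarith)
    linarith
  have hα : (w1.re + w2.re) * C + (w1.im + w2.im) * S = x := by
    rw [hre, him]
    have : (x * C - y * S) * C + (x * S + y * C) * S = x * (S ^ 2 + C ^ 2) := by ring
    rw [this, hCS, mul_one]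
  have hβ : -((w1.re + w2.re) * S) + (w1.im + w2.im) * C = y := by
    rw [hre, him]
    have : -((x * C - y * S) * S) + (x * S + y * C) * C = y * (S ^ 2 + C ^ 2) := by ring
    rw [this, hCS, mul_one]
  have h2lt : √2 < 2 := by
    rw [show (2 : ℝ) = √4 by rw [show (4 : ℝ) = 2 ^ 2 by norm_num]; simp]
    apply Real.sqrt_lt_sqrt <;> norm_num
  -- both small components vanish
  have hz : (2 - √2) * ((-(w1.re * S) + w1.im * C) + (w2.re * C + w2.im * S)) ≤ 0 := by
    nlinarith [b3, b4, hα, hβ, hsum]
  have hz' : (-(w1.re * S) + w1.im * C) + (w2.re * C + w2.im * S) ≤ 0 := by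
    by_contra hc
    push Not at hc
    have := mul_pos (show 0 < 2 - √2 by linarith) hc
    linarith
  have z1 : -(w1.re * S) + w1.im * C = 0 := by linarith
  have z2 : w2.re * C + w2.im * S = 0 := by linarith
  have z3 : w1.re * C + w1.im * S = x := by linarith
  have hPv : P F o v = P F o s + (x : ℂ) * u φ := by
    have h1 : w1 = (x : ℂ) * u φ := by
      apply Complex.ext
      · have h2 : ((x : ℂ) * u φ).re = x * C := by simp [u, hC]
        rw [h2]
        linear_combination (-w1.re) * hCS + C * z3 - S * z1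
      · have h2 : ((x : ℂ) * u φ).im = x * S := by simp [u, hS]
        rw [h2]
        linear_combination (-w1.im) * hCS + S * z3 + C * z1
    rw [← h1, hw1]
    ring
  rw [← hPv]
  exact (hRad F o hF v).2.1

end Pool.Agent.Q140.QUAD
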