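import Pool.Agent.Q140.QUAD.Stmts

namespace Pool.Agent.Q140.QUAD

private theorem disc_aux (A B C x1 y1 x2 y2 : ℝ) (h1 : x1 ^ 2 + y1 ^ 2 = 1)
    (h2 : x2 ^ 2 + y2 ^ 2 = 1) (f1 : A * x1 ^ 2 + B * (x1 * y1) + C * y1 ^ 2 ≤ 0)
    (f2 : 0 ≤ A * x2 ^ 2 + B * (x2 * y2) + C * y2 ^ 2) : 0 ≤ B ^ 2 - 4 * A * C := by
  by_contra hcon
  push Not at hcon
  have hA : A ≠ 0 := by
    rintro rfl
    nlinarith [sq_nonneg B]
  have hA2 : 0 < A ^ 2 := by positivity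
  have key : ∀ x y : ℝ, x ^ 2 + y ^ 2 = 1 → 0 < A * (A * x ^ 2 + B * (x * y) + C * y ^ 2) := by
    intro x y h
    by_cases hy : y = 0
    · subst hy
      have hx : x ^ 2 = 1 := by linarith
      have e : A * (A * x ^ 2 + B * (x * 0) + C * 0 ^ 2) = A ^ 2 * x ^ 2 := by ring
      rw [e, hx, mul_one]
      exact hA2
    · have hy2 : 0 < y ^ 2 := by positivity
      nlinarith [sq_nonneg (2 * A * x + B * y), mul_pos (neg_pos.2 hcon) hy2]
  have k1 := key x1 y1 h1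
  have k2 := key x2 y2 h2
  rcases lt_or_gt_of_ne hA with h | h
  · nlinarith [mul_nonneg (neg_nonneg.2 h.le) f2]
  · nlinarith [mul_nonneg h.le (neg_nonneg.2 f1)]

private theorem det_XX (w : ℂ) (l : ℝ) : (XX w l).det = l ^ 2 - w.re ^ 2 - w.im ^ 2 := by
  unfold XX
  rw [Matrix.det_fin_two_of]
  ring

theorem TaskDisc_proof : TaskDisc := by
  intro a1 a2 l1 l2 l3 l4 w1 w2 w3 w4 h1 h2
  obtain ⟨M, hM⟩ : ∃ M, M = XX w4 l4 * XX w3 l3 * XX w2 l2 * XX w1 l1 := ⟨_, rfl⟩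
  have htr : (M 0 0 + M 1 1) ^ 2 = 4 * TT w1 w2 w3 w4 l1 l2 l3 l4 ^ 2 := by
    have e : M 0 0 + M 1 1 = 2 * TT w1 w2 w3 w4 l1 l2 l3 l4 := by
      rw [hM]
      simp only [XX, TT, Matrix.mul_apply, Fin.sum_univ_two, Matrix.of_apply, Matrix.cons_val',
        Matrix.cons_val_zero, Matrix.cons_val_one, Matrix.cons_val_fin_one]
      ring
    rw [e]
    ring
  have hdet : M 0 0 * M 1 1 - M 0 1 * M 1 0 = PI w1 w2 w3 w4 l1 l2 l3 l4 := by
    rw [← Matrix.det_fin_two, hM, Matrix.det_mul, Matrix.det_mul, Matrix.det_mul, det_XX, det_XX,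
      det_XX, det_XX]
    unfold PI
    ring
  unfold QQ at h1 h2
  simp only [← hM] at h1 h2
  have h := disc_aux (-(M 1 0)) (M 0 0 - M 1 1) (M 0 1) (Real.cos (a1 / 2)) (Real.sin (a1 / 2))
    (Real.cos (a2 / 2)) (Real.sin (a2 / 2)) (Real.cos_sq_add_sin_sq _) (Real.cos_sq_add_sin_sq _)
    (by linarith) (by linarith)
  nlinarith

end Pool.Agent.Q140.QUAD
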