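import Pool.Agent.Q140.QUAD.Stmts

set_option autoImplicit false

namespace Pool.Agent.Q140.QUAD

open Set

private theorem edge_pos {F : Set ℂ} {o : ℂ} {s t : ℝ} :
    (P F o t - P F o s).re = rad F o t * Real.cos t - rad F o s * Real.cos s ∧
    (P F o t - P F o s).im = rad F o t * Real.sin t - rad F o s * Real.sin s := by
  constructor
  · simp [P, u, Complex.add_re, Complex.mul_re]
  · simp [P, u, Complex.add_im, Complex.mul_im]

theorem TaskEdge_proof : TaskEdge := by
  intro hRad F o hB s t σ τ hst htp hσ hτ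
  obtain ⟨ha, hPt, -⟩ := hRad F o hB t
  obtain ⟨hb, hPs, -⟩ := hRad F o hB s
  obtain ⟨hσ1, hσ2, hσ3⟩ := hσ
  obtain ⟨hτ1, hτ2, hτ3⟩ := hτ
  have h1 := hσ3 _ hPt
  have h2 := hτ3 _ hPs
  obtain ⟨hre, him⟩ := edge_pos (F := F) (o := o) (s := s) (t := t)
  have hneg : P F o s - P F o t = -(P F o t - P F o s) := by ring
  rw [hneg] at h2
  set w : ℂ := P F o t - P F o s with hw
  set a : ℝ := rad F o t with ha'
  set b : ℝ := rad F o s with hb'
  set g : ℝ → ℝ := fun φ => Real.cos φ * w.im - Real.sin φ * w.re with hg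
  have h1' : 0 ≤ g σ := h1
  have h2' : g τ ≤ 0 := by
    have h3 : 0 ≤ Real.cos τ * (-w).im - Real.sin τ * (-w).re := h2
    rw [Complex.neg_im, Complex.neg_re] at h3
    show Real.cos τ * w.im - Real.sin τ * w.re ≤ 0
    linarith
  have hsin : 0 < Real.sin (t - s) := Real.sin_pos_of_pos_of_lt_pi (by linarith) (by linarith)
  have hgs : g s = a * Real.sin (t - s) := by
    show Real.cos s * w.im - Real.sin s * w.re = _
    rw [hre, him, Real.sin_sub]; ring
  have hgt : g t = b * Real.sin (t - s) := by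
    show Real.cos t * w.im - Real.sin t * w.re = _
    rw [hre, him, Real.sin_sub]; ring
  have hgp : g (s + Real.pi) = -g s := by
    show Real.cos (s + Real.pi) * w.im - Real.sin (s + Real.pi) * w.re = -(Real.cos s * w.im - Real.sin s * w.re)
    rw [Real.cos_add_pi, Real.sin_add_pi]; ring
  have hgs0 : 0 < g s := by rw [hgs]; positivity
  have hgt0 : 0 < g t := by rw [hgt]; positivity
  have hcont : ContinuousOn g (Icc t (s + Real.pi)) := by
    apply Continuous.continuousOn
    exact (Real.continuous_cos.mul continuous_const).sub (Real.continuous_sin.mul continuous_const)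
  obtain ⟨θ, hθ, hθ0⟩ := intermediate_value_Icc' (by linarith : t ≤ s + Real.pi) hcont
    (show (0 : ℝ) ∈ Icc (g (s + Real.pi)) (g t) from ⟨by rw [hgp]; linarith, hgt0.le⟩)
  have hθt : t < θ := by
    rcases lt_or_eq_of_le hθ.1 with h | h
    · exact h
    · rw [← h] at hθ0; linarith
  have hθs : θ < s + Real.pi := by
    rcases lt_or_eq_of_le hθ.2 with h | h
    · exact h
    · rw [h, hgp] at hθ0; linarith
  have hz : Real.cos θ * w.im = Real.sin θ * w.re := by
    have : Real.cos θ * w.im - Real.sin θ * w.re = 0 := hθ0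
    linarith
  have hsc := Real.sin_sq_add_cos_sq θ
  set r : ℝ := Real.cos θ * w.re + Real.sin θ * w.im with hr
  have hwre : w.re = r * Real.cos θ := by
    rw [hr]
    linear_combination (-w.re) * hsc - Real.sin θ * hz
  have hwim : w.im = r * Real.sin θ := by
    rw [hr]
    linear_combination (-w.im) * hsc + Real.cos θ * hz
  have hgen : ∀ φ, g φ = r * Real.sin (θ - φ) := by
    intro φ
    show Real.cos φ * w.im - Real.sin φ * w.re = _
    rw [hwre, hwim, Real.sin_sub]; ring
  have hr0 : 0 < r := by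
    rw [hgen] at hgt0
    have h3 : 0 < Real.sin (θ - t) := Real.sin_pos_of_pos_of_lt_pi (by linarith) (by linarith)
    exact (pos_iff_pos_of_mul_pos hgt0).2 h3
  refine ⟨θ, r, hr0, ?_, ?_, ?_⟩
  · by_contra hcon
    rw [not_le] at hcon
    have h3 : Real.sin (θ - σ) < 0 := Real.sin_neg_of_neg_of_neg_pi_lt (by linarith) (by linarith)
    rw [hgen] at h1'
    nlinarith
  · by_contra hcon
    rw [not_le] at hcon
    have h3 : 0 < Real.sin (θ - τ) := Real.sin_pos_of_pos_of_lt_pi (by linarith) (by linarith)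
    rw [hgen] at h2'
    nlinarith
  · apply Complex.ext
    · rw [hwre, Complex.mul_re]; simp [u]
    · rw [hwim, Complex.mul_im]; simp [u]

end Pool.Agent.Q140.QUAD
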