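import Pool.Agent.Q140.QUAD.Stmts

set_option autoImplicit false

namespace Pool.Agent.Q140.QUAD

open Set

private theorem cr_lin (z a b : ℂ) (r : ℝ) : cr z (a - (r : ℂ) * b) = cr z a - r * cr z b := by
  simp only [cr, Complex.sub_re, Complex.sub_im, Complex.mul_re, Complex.mul_im,
    Complex.ofReal_re, Complex.ofReal_im]
  ring

private theorem u_per (φ : ℝ) (k : ℤ) : u (φ + 2 * Real.pi * k) = u φ := by
  have h : φ + 2 * Real.pi * k = φ + k * (2 * Real.pi) := by ring
  unfold u
  rw [h, Real.cos_add_int_mul_two_pi, Real.sin_add_int_mul_two_pi]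

theorem TaskLift_proof : TaskLift := by
  intro hRad F o hB t φ hs
  obtain ⟨hpos, -, -⟩ := hRad F o hB t
  -- a point of `F` a bit to the right of `o`
  have h1 : ∃ ε : ℝ, 0 < ε ∧ o - (ε : ℂ) * (Complex.I * u φ) ∈ F := by
    have hint := mem_interior_iff_mem_nhds.1 hB.int
    obtain ⟨δ, hδ, hsub⟩ := Metric.mem_nhds_iff.1 hint
    refine ⟨δ / 2, by positivity, hsub ?_⟩
    rw [Metric.mem_ball, dist_eq_norm]
    have hu : ‖Complex.I * u φ‖ = 1 := by
      rw [norm_mul, Complex.norm_I, one_mul]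
      have h2 : ‖u φ‖ ^ 2 = 1 := by
        rw [← Complex.normSq_eq_norm_sq, Complex.normSq_apply]
        simp only [u]
        nlinarith [Real.sin_sq_add_cos_sq φ]
      have h3 := norm_nonneg (u φ)
      nlinarith
    have h4 : o - ((δ / 2 : ℝ) : ℂ) * (Complex.I * u φ) - o =
        -(((δ / 2 : ℝ) : ℂ) * (Complex.I * u φ)) := by ring
    rw [h4, norm_neg, norm_mul, hu, mul_one, Complex.norm_real, Real.norm_eq_abs,
      abs_of_pos (by positivity)]
    linarith
  obtain ⟨ε, hε, hmem⟩ := h1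
  have h2 := hs _ hmem
  have h3 : cr (u φ) (o - (ε : ℂ) * (Complex.I * u φ) - P F o t) =
      rad F o t * Real.sin (φ - t) - ε := by
    rw [Real.sin_sub]
    simp only [cr, P, u, Complex.sub_re, Complex.sub_im, Complex.mul_re, Complex.mul_im,
      Complex.ofReal_re, Complex.ofReal_im, Complex.I_re, Complex.I_im, Complex.add_re,
      Complex.add_im]
    have := Real.sin_sq_add_cos_sq φ
    linear_combination (-ε) * this
  rw [h3] at h2
  have hsin : 0 < Real.sin (φ - t) := by
    by_contra hneg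
    push Not at hneg
    nlinarith [mul_nonneg hpos.le (neg_nonneg.2 hneg)]
  -- reduction
  obtain ⟨k, hk1, hk2⟩ : ∃ k : ℤ, -Real.pi < φ - t + 2 * Real.pi * k ∧
      φ - t + 2 * Real.pi * k ≤ Real.pi := by
    refine ⟨-toIocDiv Real.two_pi_pos (-Real.pi) (φ - t), ?_⟩
    have h4 := toIocMod_mem_Ioc Real.two_pi_pos (-Real.pi) (φ - t)
    have h5 := self_sub_toIocDiv_zsmul Real.two_pi_pos (-Real.pi) (φ - t)
    rw [← h5, zsmul_eq_mul] at h4
    push_cast
    constructor
    · have := h4.1; linarith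
    · have := h4.2; linarith
  have hsin' : 0 < Real.sin (φ - t + 2 * Real.pi * k) := by
    have h : φ - t + 2 * Real.pi * k = φ - t + k * (2 * Real.pi) := by ring
    rw [h, Real.sin_add_int_mul_two_pi]
    exact hsin
  have hk3 : 0 < φ - t + 2 * Real.pi * k := by
    by_contra hneg
    push Not at hneg
    exact absurd (Real.sin_nonpos_of_nonpos_of_neg_pi_le hneg hk1.le) (not_le.2 hsin')
  have hk4 : φ - t + 2 * Real.pi * k < Real.pi := by
    refine lt_of_le_of_ne hk2 fun h => ?_
    rw [h, Real.sin_pi] at hsin'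
    exact lt_irrefl _ hsin'
  refine ⟨k, by linarith, by linarith, fun x hx => ?_⟩
  rw [u_per]
  exact hs x hx

end Pool.Agent.Q140.QUAD
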