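import Pool.Agent.Q140.QUAD.Stmts

/-!
Support angles are monotone.
-/

namespace Pool.Agent.Q140.QUAD

theorem TaskMono_proof : TaskMono := by
  intro hE hS hR hL F o hF
  have hpi := Real.pi_gt_three
  have short : ∀ s t σ τ : ℝ, s < t → t ≤ s + 1 → Supp F o s σ → Supp F o t τ → σ ≤ τ := by
    intro s t σ τ hst h1 hs ht
    obtain ⟨θ, r, -, h2, h3, -⟩ := hE hR F o hF s t σ τ hst (by linarith) hs ht
    linarith
  have key : ∀ n : ℕ, ∀ s t σ τ : ℝ, s < t → t ≤ s + (n + 1 : ℕ) → Supp F o s σ →
      Supp F o t τ → σ ≤ τ := by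
    intro n
    induction n with
    | zero =>
      intro s t σ τ hst h1 hs ht
      exact short s t σ τ hst (by simpa using h1) hs ht
    | succ n ih =>
      intro s t σ τ hst h1 hs ht
      by_cases h : t ≤ s + 1
      · exact short s t σ τ hst h hs ht
      · rw [not_le] at h
        obtain ⟨μ, hμ⟩ := hS hR hL F o hF (s + 1)
        have e1 := short s (s + 1) σ μ (by linarith) le_rfl hs hμ
        have e2 := ih (s + 1) t μ τ h (by push_cast at h1 ⊢; linarith) hμ ht
        linarith
  intro s t σ τ hst hs ht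
  obtain ⟨n, hn⟩ := exists_nat_ge (t - s)
  exact key n s t σ τ hst (by push_cast; linarith) hs ht

end Pool.Agent.Q140.QUAD
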