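import Pool.Agent.Q140.QUAD.Stmts

set_option autoImplicit false

namespace Pool.Agent.Q140.QUAD

open Set

private theorem norm_u (t : ℝ) : ‖u t‖ = 1 := by
  have h : ‖u t‖ ^ 2 = 1 := by
    rw [← Complex.normSq_eq_norm_sq, u, Complex.normSq_mk]
    have := Real.cos_sq_add_sin_sq t
    nlinarith
  have h0 := norm_nonneg (u t)
  nlinarith

theorem TaskRad_proof : TaskRad := by
  intro F o hF t
  set A : Set ℝ := {r : ℝ | o + (r : ℂ) * u t ∈ F} with hA
  have hcl : IsClosed A := by
    have hc : Continuous fun r : ℝ => o + (r : ℂ) * u t := by fun_prop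
    exact hF.compact.isClosed.preimage hc
  obtain ⟨C, hC⟩ := hF.compact.isBounded.exists_norm_le
  have hbdd : BddAbove A := by
    refine ⟨C + ‖o‖, fun r hr => ?_⟩
    have h1 := hC _ hr
    have h2 : ‖(r : ℂ) * u t‖ ≤ C + ‖o‖ := by
      have e : (r : ℂ) * u t = (o + (r : ℂ) * u t) - o := by ring
      rw [e]
      exact (norm_sub_le _ _).trans (by linarith)
    rw [norm_mul, norm_u, mul_one, Complex.norm_real, Real.norm_eq_abs] at h2
    exact (le_abs_self r).trans h2
  obtain ⟨ε, hε, hball⟩ := Metric.isOpen_iff.1 isOpen_interior o hF.int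
  have hmem : ε / 2 ∈ A := by
    show o + ((ε / 2 : ℝ) : ℂ) * u t ∈ F
    refine interior_subset (hball ?_)
    rw [Metric.mem_ball, dist_eq_norm]
    have e : o + ((ε / 2 : ℝ) : ℂ) * u t - o = ((ε / 2 : ℝ) : ℂ) * u t := by ring
    rw [e, norm_mul, norm_u, mul_one, Complex.norm_real, Real.norm_eq_abs, abs_of_pos (by linarith)]
    linarith
  refine ⟨?_, ?_, ?_⟩
  · have := le_csSup hbdd hmem
    unfold rad
    linarith
  · exact hcl.csSup_mem ⟨_, hmem⟩ hbdd
  · intro r hr hrF
    have := le_csSup hbdd (show r ∈ A from hrF)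
    unfold rad at hr
    linarith

end Pool.Agent.Q140.QUAD
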