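import Pool.Agent.Q140.QUAD.Stmts

namespace Pool.Agent.Q140.QUAD

open Set

theorem Rot : TaskRot := by
  intro σ τ l φ w h p q r hp
  have h1 := h (p * Real.cos φ + q * Real.sin φ) (-p * Real.sin φ + q * Real.cos φ) r (by
    intro θ h1 h2
    have h3 := hp (θ + φ) (by linarith) (by linarith)
    rw [Real.cos_add, Real.sin_add] at h3
    nlinarith [h3])
  simp only [u, Complex.mul_re, Complex.mul_im]
  nlinarith [h1]

end Pool.Agent.Q140.QUAD
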