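import Pool.Agent.Q140.QUAD.Stmts

set_option autoImplicit false

/-! The three sign statements. -/

namespace Pool.Agent.Q140.QUAD

open Set

/-- a linear functional which is `≤ 0` on the generators is `≤ 0` on the arc cone -/
private theorem arc_le {σ τ : ℝ} {w : ℂ} {l : ℝ} (h : Arc σ τ w l) (f : ℂ → ℝ → ℝ)
    (hf : ∀ w l, f w l = f ⟨1, 0⟩ 0 * w.re + f ⟨0, 1⟩ 0 * w.im + f ⟨0, 0⟩ 1 * l)
    (hle : ∀ θ, σ ≤ θ → θ ≤ τ → f (u θ) 1 ≤ 0) : f w l ≤ 0 := by
  rw [hf]
  refine h _ _ _ fun θ h1 h2 => ?_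
  have := hle θ h1 h2
  rw [hf] at this
  simpa [u] using this

private theorem arc_nn {σ τ : ℝ} {w : ℂ} {l : ℝ} (h : Arc σ τ w l) (f : ℂ → ℝ → ℝ)
    (hf : ∀ w l, f w l = f ⟨1, 0⟩ 0 * w.re + f ⟨0, 1⟩ 0 * w.im + f ⟨0, 0⟩ 1 * l)
    (hle : ∀ θ, σ ≤ θ → θ ≤ τ → 0 ≤ f (u θ) 1) : 0 ≤ f w l := by
  have := arc_le h (fun w l => -f w l) (fun w l => by
      have e := hf w l
      show -f w l = _
      rw [e]; ring)
    (fun θ h1 h2 => by simpa using hle θ h1 h2)
  simpa using this

private theorem cos_half (θ : ℝ) : Real.cos θ = 2 * Real.cos (θ / 2) ^ 2 - 1 := by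
  rw [← Real.cos_two_mul]; congr 1; ring

private theorem sin_half (θ : ℝ) : Real.sin θ = 2 * Real.sin (θ / 2) * Real.cos (θ / 2) := by
  rw [← Real.sin_two_mul]; congr 1; ring

private theorem XX_u (θ : ℝ) : XX (u θ) 1 =
    !![2 * Real.sin (θ / 2) * Real.cos (θ / 2), -(2 * Real.cos (θ / 2) ^ 2);
      2 * Real.sin (θ / 2) ^ 2, -(2 * Real.sin (θ / 2) * Real.cos (θ / 2))] := by
  have h1 := cos_half θ
  have h2 := sin_half θ
  have h3 := Real.sin_sq_add_cos_sq (θ / 2)
  have e1 : -(1 + Real.cos θ) = -(2 * Real.cos (θ / 2) ^ 2) := by rw [h1]; ring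
  have e2 : 1 - Real.cos θ = 2 * Real.sin (θ / 2) ^ 2 := by rw [h1]; linarith
  simp only [XX, u, e1, e2]
  rw [h2]

private theorem QQ_u (t1 t2 t3 t4 a : ℝ) : QQ (u t1) (u t2) (u t3) (u t4) 1 1 1 1 a =
    16 * (Real.sin ((a - t4) / 2) * Real.sin ((t4 - t3) / 2) * Real.sin ((t3 - t2) / 2) *
      Real.sin ((t2 - t1) / 2) * Real.sin ((t1 - a) / 2)) := by
  simp only [sub_div, Real.sin_sub]
  simp only [QQ, XX_u, Matrix.mul_apply, Fin.sum_univ_two, Matrix.of_apply, Matrix.cons_val',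
    Matrix.cons_val_zero, Matrix.cons_val_one, Matrix.cons_val_fin_one]
  ring

private theorem TT_u (t1 t2 t3 t4 : ℝ) : TT (u t1) (u t2) (u t3) (u t4) 1 1 1 1 =
    -(8 * (Real.sin ((t2 - t1) / 2) * Real.sin ((t4 - t3) / 2) * Real.sin ((t4 - t1) / 2) *
      Real.sin ((t3 - t2) / 2))) := by
  have key : ∀ x y : ℝ, 1 * 1 - (Real.cos x * Real.cos y + Real.sin x * Real.sin y) =
      2 * Real.sin ((y - x) / 2) ^ 2 := by
    intro x y
    have h1 : Real.cos x * Real.cos y + Real.sin x * Real.sin y = Real.cos (y - x) := by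
      rw [Real.cos_sub]; ring
    have h3 := Real.sin_sq_add_cos_sq ((y - x) / 2)
    rw [h1, cos_half (y - x)]
    linarith
  have ptol : Real.sin ((t3 - t1) / 2) * Real.sin ((t4 - t2) / 2) =
      Real.sin ((t2 - t1) / 2) * Real.sin ((t4 - t3) / 2) +
      Real.sin ((t4 - t1) / 2) * Real.sin ((t3 - t2) / 2) := by
    simp only [sub_div, Real.sin_sub]
    ring
  simp only [TT, u, key]
  have : (2 * Real.sin ((t3 - t1) / 2) ^ 2) * (2 * Real.sin ((t4 - t2) / 2) ^ 2) =
      4 * (Real.sin ((t3 - t1) / 2) * Real.sin ((t4 - t2) / 2)) ^ 2 := by ring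
  rw [this, ptol]
  ring

private theorem sin_nn {x : ℝ} (h0 : 0 ≤ x) (h1 : x ≤ 2 * Real.pi) : 0 ≤ Real.sin (x / 2) :=
  Real.sin_nonneg_of_nonneg_of_le_pi (by linarith) (by linarith)

private theorem sin_np {x : ℝ} (h0 : x ≤ 0) (h1 : -(2 * Real.pi) ≤ x) : Real.sin (x / 2) ≤ 0 := by
  have := sin_nn (x := -x) (by linarith) (by linarith)
  rw [neg_div, Real.sin_neg] at this
  linarith

theorem TaskSign_proof : TaskSign := by
  intro a1 a2 a3 a4 l1 l2 l3 l4 w1 w2 w3 w4 h12 h23 h34 h41 A1 A2 A3 A4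
  refine ⟨?_, ?_, ?_⟩
  · refine arc_le A1 (fun w l => TT w w2 w3 w4 l l2 l3 l4) (fun w l => by simp only [TT]; ring) ?_
    intro t1 p1 p1'
    refine arc_le A2 (fun w l => TT (u t1) w w3 w4 1 l l3 l4) (fun w l => by simp only [TT]; ring) ?_
    intro t2 p2 p2'
    refine arc_le A3 (fun w l => TT (u t1) (u t2) w w4 1 1 l l4)
      (fun w l => by simp only [TT]; ring) ?_
    intro t3 p3 p3'
    refine arc_le A4 (fun w l => TT (u t1) (u t2) (u t3) w 1 1 1 l)
      (fun w l => by simp only [TT]; ring) ?_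
    intro t4 p4 p4'
    simp only [TT_u]
    have e1 := sin_nn (x := t2 - t1) (by linarith) (by linarith)
    have e2 := sin_nn (x := t4 - t3) (by linarith) (by linarith)
    have e3 := sin_nn (x := t4 - t1) (by linarith) (by linarith)
    have e4 := sin_nn (x := t3 - t2) (by linarith) (by linarith)
    have := mul_nonneg (mul_nonneg (mul_nonneg e1 e2) e3) e4
    linarith
  · refine arc_le A1 (fun w l => QQ w w2 w3 w4 l l2 l3 l4 a1) (fun w l => by
      simp only [QQ, XX, Matrix.mul_apply, Fin.sum_univ_two, Matrix.of_apply, Matrix.cons_val',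
        Matrix.cons_val_zero, Matrix.cons_val_one, Matrix.cons_val_fin_one]; ring) ?_
    intro t1 p1 p1'
    refine arc_le A2 (fun w l => QQ (u t1) w w3 w4 1 l l3 l4 a1) (fun w l => by
      simp only [QQ, XX, Matrix.mul_apply, Fin.sum_univ_two, Matrix.of_apply, Matrix.cons_val',
        Matrix.cons_val_zero, Matrix.cons_val_one, Matrix.cons_val_fin_one]; ring) ?_
    intro t2 p2 p2'
    refine arc_le A3 (fun w l => QQ (u t1) (u t2) w w4 1 1 l l4 a1) (fun w l => by
      simp only [QQ, XX, Matrix.mul_apply, Fin.sum_univ_two, Matrix.of_apply, Matrix.cons_val',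
        Matrix.cons_val_zero, Matrix.cons_val_one, Matrix.cons_val_fin_one]; ring) ?_
    intro t3 p3 p3'
    refine arc_le A4 (fun w l => QQ (u t1) (u t2) (u t3) w 1 1 1 l a1) (fun w l => by
      simp only [QQ, XX, Matrix.mul_apply, Fin.sum_univ_two, Matrix.of_apply, Matrix.cons_val',
        Matrix.cons_val_zero, Matrix.cons_val_one, Matrix.cons_val_fin_one]; ring) ?_
    intro t4 p4 p4'
    simp only [QQ_u]
    have e0 := sin_np (x := a1 - t4) (by linarith) (by linarith)
    have e1 := sin_nn (x := t4 - t3) (by linarith) (by linarith)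
    have e2 := sin_nn (x := t3 - t2) (by linarith) (by linarith)
    have e3 := sin_nn (x := t2 - t1) (by linarith) (by linarith)
    have e4 := sin_nn (x := t1 - a1) (by linarith) (by linarith)
    have := mul_nonneg (mul_nonneg (mul_nonneg (mul_nonneg (neg_nonneg.mpr e0) e1) e2) e3) e4
    nlinarith [this]
  · refine arc_nn A1 (fun w l => QQ w w2 w3 w4 l l2 l3 l4 a2) (fun w l => by
      simp only [QQ, XX, Matrix.mul_apply, Fin.sum_univ_two, Matrix.of_apply, Matrix.cons_val',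
        Matrix.cons_val_zero, Matrix.cons_val_one, Matrix.cons_val_fin_one]; ring) ?_
    intro t1 p1 p1'
    refine arc_nn A2 (fun w l => QQ (u t1) w w3 w4 1 l l3 l4 a2) (fun w l => by
      simp only [QQ, XX, Matrix.mul_apply, Fin.sum_univ_two, Matrix.of_apply, Matrix.cons_val',
        Matrix.cons_val_zero, Matrix.cons_val_one, Matrix.cons_val_fin_one]; ring) ?_
    intro t2 p2 p2'
    refine arc_nn A3 (fun w l => QQ (u t1) (u t2) w w4 1 1 l l4 a2) (fun w l => by
      simp only [QQ, XX, Matrix.mul_apply, Fin.sum_univ_two, Matrix.of_apply, Matrix.cons_val',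
        Matrix.cons_val_zero, Matrix.cons_val_one, Matrix.cons_val_fin_one]; ring) ?_
    intro t3 p3 p3'
    refine arc_nn A4 (fun w l => QQ (u t1) (u t2) (u t3) w 1 1 1 l a2) (fun w l => by
      simp only [QQ, XX, Matrix.mul_apply, Fin.sum_univ_two, Matrix.of_apply, Matrix.cons_val',
        Matrix.cons_val_zero, Matrix.cons_val_one, Matrix.cons_val_fin_one]; ring) ?_
    intro t4 p4 p4'
    simp only [QQ_u]
    have e0 := sin_np (x := a2 - t4) (by linarith) (by linarith)
    have e1 := sin_nn (x := t4 - t3) (by linarith) (by linarith)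
    have e2 := sin_nn (x := t3 - t2) (by linarith) (by linarith)
    have e3 := sin_nn (x := t2 - t1) (by linarith) (by linarith)
    have e4 := sin_np (x := t1 - a2) (by linarith) (by linarith)
    have := mul_nonneg (mul_nonneg (mul_nonneg (mul_nonneg (neg_nonneg.mpr e0) e1) e2) e3)
      (neg_nonneg.mpr e4)
    nlinarith [this]

end Pool.Agent.Q140.QUAD
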