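import Pool.Agent.Q140.QUAD.Stmts

set_option autoImplicit false

namespace Pool.Agent.Q140.QUAD

open Set

theorem TaskSupp_proof : TaskSupp := by
  intro hRad hLift F o hB t
  obtain ⟨hpos, hmem, hbeyond⟩ := hRad F o hB t
  -- `P t` is not an interior point
  have hnot : P F o t ∉ interior F := by
    intro hint
    rw [mem_interior_iff_mem_nhds, Metric.mem_nhds_iff] at hint
    obtain ⟨ε, hε, hball⟩ := hint
    have h1 : o + ((rad F o t + ε / 2 : ℝ) : ℂ) * u t ∈ F := by
      apply hball
      rw [Metric.mem_ball, dist_eq_norm]
      have h2 : o + ((rad F o t + ε / 2 : ℝ) : ℂ) * u t - P F o t = ((ε / 2 : ℝ) : ℂ) * u t := by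
        unfold P
        push_cast
        ring
      have h3 : ‖u t‖ = 1 := by
        have h4 : Complex.normSq (u t) = 1 := by
          simp only [u, Complex.normSq_mk]
          nlinarith [Real.sin_sq_add_cos_sq t]
        rw [← Complex.sq_norm] at h4
        nlinarith [norm_nonneg (u t)]
      rw [h2, norm_mul, h3, Complex.norm_real, Real.norm_eq_abs, abs_of_pos (by positivity)]
      linarith
    exact hbeyond _ (by linarith) h1
  obtain ⟨f, hf⟩ := geometric_hahn_banach_open_point hB.convex.interior isOpen_interior hnot
  have hF : ∀ x ∈ F, f x ≤ f (P F o t) := by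
    intro x hx
    have hx2 : x ∈ closure (interior F) := by
      rw [hB.convex.closure_interior_eq_closure_of_nonempty_interior ⟨o, hB.int⟩]
      exact subset_closure hx
    have hcl : closure (interior F) ⊆ {y | f y ≤ f (P F o t)} := by
      apply closure_minimal
      · intro y hy
        exact (hf y hy).le
      · exact isClosed_le f.continuous continuous_const
    exact hcl hx2
  have hfo : f o < f (P F o t) := hf o hB.int
  set a : ℝ := f 1 with ha
  set b : ℝ := f Complex.I with hb
  have hlin : ∀ z : ℂ, f z = z.re * a + z.im * b := by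
    intro z
    have hz : z = z.re • (1 : ℂ) + z.im • Complex.I := by
      apply Complex.ext <;> simp
    conv_lhs => rw [hz]
    rw [map_add, map_smul, map_smul, smul_eq_mul, smul_eq_mul]
  set v : ℂ := ⟨-b, a⟩ with hv
  have hv0 : v ≠ 0 := by
    intro h0
    have h1 : -b = 0 := by
      have := congrArg Complex.re h0
      simpa [hv] using this
    have h2 : a = 0 := by
      have := congrArg Complex.im h0
      simpa [hv] using this
    have h3 : b = 0 := by linarith
    rw [hlin, hlin (P F o t), h2, h3] at hfo
    simp at hfo
  have hvn : 0 < ‖v‖ := norm_pos_iff.mpr hv0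
  obtain ⟨k, hk⟩ := hLift hRad F o hB t v.arg (by
    intro x hx
    have h1 := hF x hx
    have h2 : f (x - P F o t) ≤ 0 := by
      rw [map_sub]
      linarith
    rw [hlin] at h2
    have h3 : cr (u v.arg) (x - P F o t)
        = -((x - P F o t).re * a + (x - P F o t).im * b) / ‖v‖ := by
      simp only [cr, u]
      rw [Complex.cos_arg hv0, Complex.sin_arg]
      simp only [hv]
      field_simp
      ring
    rw [h3]
    apply div_nonneg _ hvn.le
    linarith)
  exact ⟨_, hk⟩

end Pool.Agent.Q140.QUAD
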