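import Pool.Agent.Q140.QUAD.Core
import Pool.Agent.Q140.QUAD.TaskAlg
import Pool.Agent.Q140.QUAD.TaskArc
import Pool.Agent.Q140.QUAD.TaskCorner
import Pool.Agent.Q140.QUAD.TaskDisc
import Pool.Agent.Q140.QUAD.TaskEdge
import Pool.Agent.Q140.QUAD.TaskLift
import Pool.Agent.Q140.QUAD.TaskMono
import Pool.Agent.Q140.QUAD.TaskRad
import Pool.Agent.Q140.QUAD.TaskRot
import Pool.Agent.Q140.QUAD.TaskSign
import Pool.Agent.Q140.QUAD.TaskSupp

namespace Pool.Agent.Q140.QUAD
open Set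

theorem unify {e X e' X' : ℂ} {a b a' b' l : ℝ} (he : e.re ^ 2 + e.im ^ 2 = 1)
    (he' : e'.re ^ 2 + e'.im ^ 2 = 1) (ha' : 0 < a') (hb : 0 < b) (h1 : a + b = l) (h1' : a' + b' = l)
    (k1 : X + b * (Complex.I * e) = X' + a' * e') (k2 : X - b * (Complex.I * e) = X' - a' * e') :
    X' = X ∧ a' = b ∧ b' = a ∧ e' = Complex.I * e := by
  have hX : X' = X := by linear_combination (-1 / 2 : ℂ) * (k1 + k2)
  have hk : (a' : ℂ) * e' = b * (Complex.I * e) := by linear_combination (-1 / 2 : ℂ) * (k1 - k2)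
  have hre := congrArg Complex.re hk
  have him := congrArg Complex.im hk
  simp at hre him
  have hsq : a' ^ 2 = b ^ 2 := by
    have : a' ^ 2 * (e'.re ^ 2 + e'.im ^ 2) = b ^ 2 * (e.re ^ 2 + e.im ^ 2) := by
      linear_combination (a' * e'.re - b * e.im) * hre + (a' * e'.im + b * e.re) * him
    rw [he, he'] at this; linarith
  have hab : a' = b := by nlinarith
  subst hab
  refine ⟨hX, rfl, by linarith, ?_⟩
  apply Complex.ext
  · simp
    have : a' * (e'.re + e.im) = 0 := by linear_combination hre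
    rcases mul_eq_zero.1 this with h | h
    · linarith
    · linarith
  · simp
    have : a' * (e'.im - e.re) = 0 := by linear_combination him
    rcases mul_eq_zero.1 this with h | h
    · linarith
    · linarith

theorem coreX {F : Set ℂ} {o : ℂ} {l t1 t2 t3 t4 : ℝ} (hB : Body F o) (hl : 0 < l)
    (hQ : Quad F o l t1 t2 t3 t4)
    (hle : ‖P F o t1 - P F o t3‖ + ‖P F o t2 - P F o t4‖ ≤ 2 * l) {τ1 : ℝ} (h1 : Supp F o t1 τ1) :
    ∃ (e X : ℂ) (a b : ℝ), e.re ^ 2 + e.im ^ 2 = 1 ∧ 0 < a ∧ 0 < b ∧ a + b = l ∧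
      P F o t1 = X + a * e ∧ P F o t3 = X - a * e ∧ P F o t2 = X + b * (Complex.I * e) ∧
      P F o t4 = X - b * (Complex.I * e) ∧ u τ1 = Complex.I * e :=
  core TaskRad_proof TaskLift_proof TaskSupp_proof TaskEdge_proof TaskMono_proof TaskArc_proof
    TaskSign_proof TaskDisc_proof Rot TaskAlg_proof hB hl hQ hle h1

theorem hle_rot {F : Set ℂ} {o : ℂ} {l t1 t2 t3 t4 : ℝ}
    (hle : ‖P F o t1 - P F o t3‖ + ‖P F o t2 - P F o t4‖ ≤ 2 * l) :
    ‖P F o t2 - P F o t4‖ + ‖P F o t3 - P F o (t1 + 2 * Real.pi)‖ ≤ 2 * l := by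
  rw [P_two_pi, norm_sub_rev (P F o t3)]; linarith

theorem corner_mem {F : Set ℂ} {o : ℂ} {l t1 t2 t3 t4 : ℝ} (hB : Body F o) (hl : 0 < l)
    (hQ : Quad F o l t1 t2 t3 t4)
    (hle : ‖P F o t1 - P F o t3‖ + ‖P F o t2 - P F o t4‖ ≤ 2 * l) :
    ∃ (e X : ℂ) (a b : ℝ), e.re ^ 2 + e.im ^ 2 = 1 ∧ 0 < a ∧ 0 < b ∧ a + b = l ∧
      P F o t1 = X + a * e ∧ P F o t3 = X - a * e ∧ P F o t2 = X + b * (Complex.I * e) ∧
      P F o t4 = X - b * (Complex.I * e) ∧ X + a * e + b * (Complex.I * e) ∈ F ∧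
      ∀ x ∈ F, e.re * (x - X).re + e.im * (x - X).im ≤ a := by
  obtain ⟨τ1, h1⟩ := TaskSupp_proof TaskRad_proof TaskLift_proof F o hB t1
  obtain ⟨τ2, h2⟩ := TaskSupp_proof TaskRad_proof TaskLift_proof F o hB t2
  obtain ⟨e, X, a, b, he, ha, hb, hab, hA, hC, hBB, hD, hu⟩ := coreX hB hl hQ hle h1
  obtain ⟨e', X', a', b', he', ha', hb', hab', hA', hC', hBB', hD', hu'⟩ :=
    coreX hB hl hQ.rot (hle_rot hle) h2
  obtain ⟨-, -, -, hee⟩ := unify he he' ha' hb hab hab' (hBB.symm.trans hA') (hD.symm.trans hC')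
  have mono := fun s t σ τ => TaskMono_proof TaskEdge_proof TaskSupp_proof TaskRad_proof TaskLift_proof F o hB s t σ τ
  have m12 := mono _ _ _ _ hQ.h12 h1 h2
  have m21 := mono _ _ _ _ (by linarith [hQ.h23, hQ.h34, hQ.h41]) h2 h1.add_two_pi
  have hu1re := congrArg Complex.re hu
  have hu1im := congrArg Complex.im hu
  rw [hee] at hu'
  have hu2re := congrArg Complex.re hu'
  have hu2im := congrArg Complex.im hu'
  simp [u] at hu1re hu1im hu2re hu2im
  have hsin : Real.sin (τ2 - τ1) = 1 := by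
    rw [Real.sin_sub, hu1re, hu1im, hu2re, hu2im]; linear_combination he
  have hpi := Real.pi_pos
  have hδ : τ2 = τ1 + Real.pi / 2 := by
    have h : Real.cos (τ2 - τ1 - Real.pi / 2) = 1 := by rw [Real.cos_sub_pi_div_two]; exact hsin
    have := (Real.cos_eq_one_iff_of_lt_of_lt (by linarith) (by linarith)).1 h
    linarith
  have hcorner := TaskCorner_proof TaskArc_proof TaskEdge_proof TaskSupp_proof TaskRad_proof TaskLift_proof
    TaskMono_proof F o hB t1 t2 τ1 b a hQ.h12 (by linarith [hQ.h23, hQ.h34, hQ.h41]) h1 (by rw [← hδ]; exact h2)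
    hb.le ha.le
    (by rw [u_add_pi_div_two, hu, hA, hBB]
        have : Complex.I * Complex.I = -1 := Complex.I_mul_I
        linear_combination (-(a : ℂ) * e) * this)
    (by rw [show b + a = l by linarith]; exact hQ.v1)
  refine ⟨e, X, a, b, he, ha, hb, hab, hA, hC, hBB, hD, ?_, ?_⟩
  · rw [hu, hA] at hcorner; exact hcorner
  · intro x hx
    have h := h1.2.2 x hx
    rw [hu, hA] at h
    simp [cr] at h
    simp
    nlinarith

theorem rect_of {F : Set ℂ} (hc : Convex ℝ F) {e X : ℂ} {a b : ℝ} (he : e.re ^ 2 + e.im ^ 2 = 1)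
    (ha : 0 < a) (hb : 0 < b)
    (K1 : X + a * e + b * (Complex.I * e) ∈ F) (K2 : X - a * e + b * (Complex.I * e) ∈ F)
    (K3 : X - a * e - b * (Complex.I * e) ∈ F) (K4 : X + a * e - b * (Complex.I * e) ∈ F)
    (S1 : ∀ x ∈ F, e.re * (x - X).re + e.im * (x - X).im ≤ a)
    (S2 : ∀ x ∈ F, -e.im * (x - X).re + e.re * (x - X).im ≤ b)
    (S3 : ∀ x ∈ F, -e.re * (x - X).re - e.im * (x - X).im ≤ a)
    (S4 : ∀ x ∈ F, e.im * (x - X).re - e.re * (x - X).im ≤ b) : IsRect F := by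
  have hn : ‖e‖ = 1 := by
    have : ‖e‖ ^ 2 = 1 := by rw [← Complex.normSq_eq_norm_sq, Complex.normSq_apply]; linarith
    nlinarith [norm_nonneg e]
  have hu : u (Complex.arg e) = e := by
    apply Complex.ext
    · have := Complex.norm_mul_cos_arg e
      rw [hn, one_mul] at this; exact this
    · have := Complex.norm_mul_sin_arg e
      rw [hn, one_mul] at this; exact this
  refine ⟨X, Complex.arg e, a, b, ha, hb, ?_⟩
  rw [u_add_pi_div_two, hu]
  ext z
  constructor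
  · intro hz
    refine ⟨e.re * (z - X).re + e.im * (z - X).im, -e.im * (z - X).re + e.re * (z - X).im,
      abs_le.2 ⟨by linarith [S3 z hz], S1 z hz⟩, abs_le.2 ⟨by linarith [S4 z hz], S2 z hz⟩, ?_⟩
    apply Complex.ext
    · simp
      linear_combination (-(z.re - X.re)) * he
    · simp
      linear_combination (-(z.im - X.im)) * he
  · rintro ⟨x, y, hx, hy, rfl⟩
    rw [abs_le] at hx hy
    have w1 : 0 ≤ (a + x) / (2 * a) := div_nonneg (by linarith) (by linarith)
    have w2 : 0 ≤ (a - x) / (2 * a) := div_nonneg (by linarith) (by linarith)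
    have w3 : (a + x) / (2 * a) + (a - x) / (2 * a) = 1 := by field_simp; ring
    have v1 : 0 ≤ (b + y) / (2 * b) := div_nonneg (by linarith) (by linarith)
    have v2 : 0 ≤ (b - y) / (2 * b) := div_nonneg (by linarith) (by linarith)
    have v3 : (b + y) / (2 * b) + (b - y) / (2 * b) = 1 := by field_simp; ring
    have hac : (a : ℂ) ≠ 0 := by exact_mod_cast ha.ne'
    have hbc : (b : ℂ) ≠ 0 := by exact_mod_cast hb.ne'
    have M1 : X + x * e + b * (Complex.I * e) ∈ F := by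
      have := hc K1 K2 w1 w2 w3
      convert this using 1
      simp only [Complex.real_smul]; push_cast; field_simp; ring
    have M2 : X + x * e - b * (Complex.I * e) ∈ F := by
      have := hc K4 K3 w1 w2 w3
      convert this using 1
      simp only [Complex.real_smul]; push_cast; field_simp; ring
    have := hc M1 M2 v1 v2 v3
    convert this using 1
    simp only [Complex.real_smul]; push_cast; field_simp; ring

theorem main {F : Set ℂ} {o : ℂ} {l t1 t2 t3 t4 : ℝ} (hB : Body F o) (hl : 0 < l)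
    (hQ : Quad F o l t1 t2 t3 t4)
    (hle : ‖P F o t1 - P F o t3‖ + ‖P F o t2 - P F o t4‖ ≤ 2 * l) :
    ‖P F o t1 - P F o t3‖ + ‖P F o t2 - P F o t4‖ = 2 * l ∧ IsRect F := by
  obtain ⟨e, X, a, b, he, ha, hb, hab, hA, hC, hBB, hD, hK1, hS1⟩ := corner_mem hB hl hQ hle
  obtain ⟨e2, X2, a2, b2, he2, ha2, hb2, hab2, hA2, hC2, hBB2, hD2, hK2, hS2⟩ :=
    corner_mem hB hl hQ.rot (hle_rot hle)
  obtain ⟨e3, X3, a3, b3, he3, ha3, hb3, hab3, hA3, hC3, hBB3, hD3, hK3, hS3⟩ :=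
    corner_mem hB hl hQ.rot.rot (hle_rot (hle_rot hle))
  obtain ⟨e4, X4, a4, b4, he4, ha4, hb4, hab4, hA4, hC4, hBB4, hD4, hK4, hS4⟩ :=
    corner_mem hB hl hQ.rot.rot.rot (hle_rot (hle_rot (hle_rot hle)))
  obtain ⟨x2, x3, x4, x5⟩ := unify he he2 ha2 hb hab hab2 (hBB.symm.trans hA2) (hD.symm.trans hC2)
  obtain ⟨y2, y3, y4, y5⟩ := unify he2 he3 ha3 hb2 hab2 hab3 (hBB2.symm.trans hA3) (hD2.symm.trans hC3)
  obtain ⟨z2, z3, z4, z5⟩ := unify he3 he4 ha4 hb3 hab3 hab4 (hBB3.symm.trans hA4) (hD3.symm.trans hC4)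
  subst x2 x3 x4 x5
  subst y2 y3 y4 y5
  subst z2 z3 z4 z5
  have hI : Complex.I * Complex.I = -1 := Complex.I_mul_I
  have hn : ‖e‖ = 1 := by
    have : ‖e‖ ^ 2 = 1 := by rw [← Complex.normSq_eq_norm_sq, Complex.normSq_apply]; linarith
    nlinarith [norm_nonneg e]
  constructor
  · have e1 : P F o t1 - P F o t3 = ((2 * b4 : ℝ) : ℂ) * e := by rw [hA, hC]; push_cast; ring
    have e2 : P F o t2 - P F o t4 = ((2 * a4 : ℝ) : ℂ) * (Complex.I * e) := by
      rw [hBB, hD]; push_cast; ring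
    rw [e1, e2, norm_mul, norm_mul, norm_mul, hn, Complex.norm_I, Complex.norm_real, Complex.norm_real,
      Real.norm_of_nonneg (by linarith), Real.norm_of_nonneg (by linarith)]
    linarith
  · refine rect_of hB.convex he ha hb hK1 ?_ ?_ ?_ hS1 ?_ ?_ ?_
    · convert hK2 using 1; linear_combination (-(b4 : ℂ) * e) * hI
    · convert hK3 using 1
      linear_combination (-(b4 : ℂ) * e - (a4 : ℂ) * Complex.I * e) * hI
    · convert hK4 using 1
      linear_combination (-(a4 : ℂ) * Complex.I * e - (b4 : ℂ) * e * (Complex.I * Complex.I - 1)) * hI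
    · intro x hx; have := hS2 x hx; simp at this ⊢; linarith
    · intro x hx; have := hS3 x hx; simp at this ⊢; linarith
    · intro x hx; have := hS4 x hx; simp at this ⊢; linarith

end Pool.Agent.Q140.QUAD
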