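import Mathlib

/-!
Blueprint for MP_bff4fe_gt (perpendicular perimeter-quadrisecting chords: `2(|c1|+|c2|) ≥ L`, equality only
for rectangles).  Plane = ℂ.
-/

namespace Pool.Agent.Q140.QUAD

open Set

/-- unit vector with angle `θ` -/
noncomputable def u (θ : ℝ) : ℂ := ⟨Real.cos θ, Real.sin θ⟩

/-- cross product -/
def cr (z w : ℂ) : ℝ := z.re * w.im - z.im * w.re

/-- radial function of `F` seen from `o` -/
noncomputable def rad (F : Set ℂ) (o : ℂ) (t : ℝ) : ℝ := sSup {r : ℝ | o + (r : ℂ) * u t ∈ F}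

/-- boundary point of `F` with polar angle `t` seen from `o` -/
noncomputable def P (F : Set ℂ) (o : ℂ) (t : ℝ) : ℂ := o + (rad F o t : ℂ) * u t

structure Body (F : Set ℂ) (o : ℂ) : Prop where
  compact : IsCompact F
  convex : Convex ℝ F
  int : o ∈ interior F

/-- `τ` is a support (tangent) angle at parameter `t`, lifted to `(t, t+π)`; `F` is to the left. -/
def Supp (F : Set ℂ) (o : ℂ) (t τ : ℝ) : Prop :=
  t < τ ∧ τ < t + Real.pi ∧ ∀ x ∈ F, 0 ≤ cr (u τ) (x - P F o t)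

/-- `(w, ℓ)` lies in the closed convex cone spanned by the `(u θ, 1)`, `σ ≤ θ ≤ τ` (bidual form). -/
def Arc (σ τ : ℝ) (w : ℂ) (ℓ : ℝ) : Prop :=
  ∀ p q r : ℝ, (∀ θ, σ ≤ θ → θ ≤ τ → p * Real.cos θ + q * Real.sin θ + r ≤ 0) →
    p * w.re + q * w.im + r * ℓ ≤ 0

/-- radial function: positive, the supremum is attained, nothing beyond -/
def TaskRad : Prop := ∀ F o, Body F o → ∀ t,
  0 < rad F o t ∧ P F o t ∈ F ∧ ∀ r, rad F o t < r → o + (r : ℂ) * u t ∉ F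

/-- every supporting direction at `P t` has a lift in `(t, t+π)`.
Hint: `cr (u φ) (o - P t) > 0` strictly as `o` is interior (perturb `o` in direction `-I * u φ`), this is
`rad * sin (φ - t)`; reduce `φ - t` mod 2π to `(-π, π]`. -/
def TaskLift : Prop := TaskRad → ∀ F o, Body F o → ∀ t φ,
  (∀ x ∈ F, 0 ≤ cr (u φ) (x - P F o t)) → ∃ k : ℤ, Supp F o t (φ + 2 * Real.pi * k)

/-- existence of support lines. Hint: `geometric_hahn_banach_open_point` for `interior F` and `P t`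
(`P t ∉ interior F` by TaskRad), closure of the interior, then TaskLift. -/
def TaskSupp : Prop := TaskRad → TaskLift → ∀ F o, Body F o → ∀ t, ∃ τ, Supp F o t τ

/-- direction of the chord `P s → P t`. Hint: `cr (u s) (P t - P s) = rad t * sin (t-s) > 0` and
`cr (u t) (P t - P s) = rad s * sin (t-s) > 0` give `θ ∈ (t, s+π)` (for a lift of the argument), then compare
with `σ` (both in `(s, s+π)`, `sin (θ-σ) ≥ 0`) and with `τ` (both in `(t,t+π)`). -/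
def TaskEdge : Prop := TaskRad → ∀ F o, Body F o → ∀ s t σ τ : ℝ, s < t → t < s + Real.pi →
  Supp F o s σ → Supp F o t τ →
  ∃ θ r : ℝ, 0 < r ∧ σ ≤ θ ∧ θ ≤ τ ∧ P F o t - P F o s = (r : ℂ) * u θ

/-- support angles are monotone. Hint: TaskEdge with one or more intermediate points (steps `< π`). -/
def TaskMono : Prop := TaskEdge → TaskSupp → TaskRad → TaskLift → ∀ F o, Body F o → ∀ s t σ τ : ℝ, s < t →
  Supp F o s σ → Supp F o t τ → σ ≤ τ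

/-- Arc property. Hint: let `G x y := -(p,q)·(P y - P x)`. For `s ≤ x ≤ y ≤ t`, `y < x + π`, TaskEdge and TaskMono
give `r * ‖P y - P x‖ ≤ G x y`. If `r > 0`: the same for all `x ≤ y` in `[s,t]` (cut into 3 steps), so
`φ x := G s x / r` is monotone on `[s,t]` and `edist (P x) (P y) ≤ edist (φ x) (φ y)`, hence
`eVariationOn P ≤ eVariationOn φ ≤ ofReal (φ t - φ s)` (`MonotoneOn.eVariationOn_le`). If `r ≤ 0`: cut `[s,t]` into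
3 steps `< π`; the sum of the three chords is `≤ ℓ`. -/
def TaskArc : Prop := TaskEdge → TaskSupp → TaskRad → TaskLift → TaskMono →
  ∀ F o, Body F o → ∀ s t σ τ ℓ : ℝ, s ≤ t →
  t ≤ s + 2 * Real.pi → Supp F o s σ → Supp F o t τ → 0 ≤ ℓ →
  eVariationOn (P F o) (Icc s t) = ENNReal.ofReal ℓ → Arc σ τ (P F o t - P F o s) ℓ

/-- `T` -/
def TT (w1 w2 w3 w4 : ℂ) (l1 l2 l3 l4 : ℝ) : ℝ :=
  (l1 * l2 - (w1.re * w2.re + w1.im * w2.im)) * (l3 * l4 - (w3.re * w4.re + w3.im * w4.im))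
  - (l1 * l3 - (w1.re * w3.re + w1.im * w3.im)) * (l2 * l4 - (w2.re * w4.re + w2.im * w4.im))
  + (l1 * l4 - (w1.re * w4.re + w1.im * w4.im)) * (l2 * l3 - (w2.re * w3.re + w2.im * w3.im))

/-- `Π` -/
def PI (w1 w2 w3 w4 : ℂ) (l1 l2 l3 l4 : ℝ) : ℝ :=
  (l1 ^ 2 - w1.re ^ 2 - w1.im ^ 2) * (l2 ^ 2 - w2.re ^ 2 - w2.im ^ 2) *
  (l3 ^ 2 - w3.re ^ 2 - w3.im ^ 2) * (l4 ^ 2 - w4.re ^ 2 - w4.im ^ 2)

/-- the matrix `2 S K`, `S = ½ [[l+x, y],[y, l-x]]`, `K = [[0,-1],[1,0]]` -/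
def XX (w : ℂ) (l : ℝ) : Matrix (Fin 2) (Fin 2) ℝ := !![w.im, -(l + w.re); l - w.re, -w.im]

/-- the quadratic form `ψᵀ K X4 X3 X2 X1 ψ` at `ψ = (cos (θ/2), sin (θ/2))` -/
noncomputable def QQ (w1 w2 w3 w4 : ℂ) (l1 l2 l3 l4 : ℝ) (θ : ℝ) : ℝ :=
  let M := XX w4 l4 * XX w3 l3 * XX w2 l2 * XX w1 l1
  let x := Real.cos (θ / 2)
  let y := Real.sin (θ / 2)
  (M 0 0 - M 1 1) * (x * y) + M 0 1 * y ^ 2 - M 1 0 * x ^ 2

/-- the three sign statements. Hint: each of the three quantities is an affine-linear (homogeneous) function of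
each `(wi, li)`, so by `Arc` (four times, nested) it is enough to check it for `wi = u θi`, `li = 1`, where they are
`-8 s12 s34 s14 s23`, `-16 ..`, `16 ..` with `s_jk = sin ((θk-θj)/2) ≥ 0` (`Q(ψ) = 16 ∏` of the
consecutive `ψᵀKψ`). -/
def TaskSign : Prop := ∀ (a1 a2 a3 a4 l1 l2 l3 l4 : ℝ) (w1 w2 w3 w4 : ℂ),
  a1 ≤ a2 → a2 ≤ a3 → a3 ≤ a4 → a4 ≤ a1 + 2 * Real.pi →
  Arc a1 a2 w1 l1 → Arc a2 a3 w2 l2 → Arc a3 a4 w3 l3 → Arc a4 (a1 + 2 * Real.pi) w4 l4 →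
  TT w1 w2 w3 w4 l1 l2 l3 l4 ≤ 0 ∧ QQ w1 w2 w3 w4 l1 l2 l3 l4 a1 ≤ 0 ∧
  0 ≤ QQ w1 w2 w3 w4 l1 l2 l3 l4 a2

/-- discriminant: `(tr M)² - 4 det M ≥ 0` if the form takes both signs; `tr M = 2T`, `det M = Π`. -/
def TaskDisc : Prop := ∀ (a1 a2 l1 l2 l3 l4 : ℝ) (w1 w2 w3 w4 : ℂ),
  QQ w1 w2 w3 w4 l1 l2 l3 l4 a1 ≤ 0 → 0 ≤ QQ w1 w2 w3 w4 l1 l2 l3 l4 a2 →
  PI w1 w2 w3 w4 l1 l2 l3 l4 ≤ TT w1 w2 w3 w4 l1 l2 l3 l4 ^ 2

/-- rotation of the data -/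
def TaskRot : Prop := ∀ (σ τ l φ : ℝ) (w : ℂ), Arc σ τ w l → Arc (σ + φ) (τ + φ) (w * u φ) l

/-- Corner lemma: along the arc from `P s` to `P t` the tangent turns from `φ` to `φ + π/2`, the chord is
`x u(φ) + y u(φ+π/2)` and the length is `x + y`; then the corner belongs to `F`.
Hint: let `R ∈ F` maximise `X ↦ -cr (u (φ+π/4)) X` on `F` (compact); `R = P v` for some `v ∈ [s, s+2π)`, with a
support angle `φ + π/4` there (TaskLift, TaskMono, Supp is 2π-periodic), so `v ≤ t` by TaskMono. Split the variation at `v`,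
`Arc φ (φ+π/4)` and `Arc (φ+π/4) (φ+π/2)` (TaskArc) with the functionals
`1 - cos (θ-φ) - (√2-1) sin (θ-φ) ≤ 0` on `[φ, φ+π/4]` and `1 - sin (θ-φ) - (√2-1) cos (θ-φ) ≤ 0` on `[φ+π/4, φ+π/2]`. -/
def TaskCorner : Prop := TaskArc → TaskEdge → TaskSupp → TaskRad → TaskLift → TaskMono →
  ∀ F o, Body F o → ∀ s t φ x y : ℝ, s < t → t < s + 2 * Real.pi →
  Supp F o s φ → Supp F o t (φ + Real.pi / 2) → 0 ≤ x → 0 ≤ y →
  P F o t - P F o s = (x : ℂ) * u φ + (y : ℂ) * u (φ + Real.pi / 2) →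
  eVariationOn (P F o) (Icc s t) = ENNReal.ofReal (x + y) → P F o s + (x : ℂ) * u φ ∈ F

/-- the algebraic heart. `A=(a,0), B=(0,b), C=(-c,0), D=(0,-d)`. Hint (ℓ = 1; scale or use homogeneous forms):
`p=a+c, q=b+d, X=(a-c)², Y=(b-d)², σ=X+Y, W=4ℓ²-p²-q²-σ, E=4ℓ²-(p+q)², Z=W²-4p²X-4q²Y, G=p²q²-4ℓ²σ`:
`16T = Z-8G`, `256Π = Z²-64p²q²XY`, `D := Z-4G = E(4pq+E+2σ)+σ²+4(p+q)(qX+pY)`. Then
`D ≤ 4G`, `G*D ≤ 4p²q²XY`, so `D² ≤ 16p²q²XY`, while `D² ≥ 64(p+q)²pqXY`: `XY=0`, `D=0`, `E=0`, `X=Y=0`. -/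
def TaskAlg : Prop := ∀ (a b c d l : ℝ), 0 < l → 0 < a + c → 0 < b + d → (a + c) + (b + d) ≤ 2 * l →
  TT ⟨-a, b⟩ ⟨-c, -b⟩ ⟨c, -d⟩ ⟨a, d⟩ l l l l ≤ 0 →
  PI ⟨-a, b⟩ ⟨-c, -b⟩ ⟨c, -d⟩ ⟨a, d⟩ l l l l ≤ TT ⟨-a, b⟩ ⟨-c, -b⟩ ⟨c, -d⟩ ⟨a, d⟩ l l l l ^ 2 →
  a = c ∧ b = d ∧ a + b = l

/-- a rectangle with centre `c`, half axes `a, b`, direction `θ` -/
def IsRect (F : Set ℂ) : Prop := ∃ (c : ℂ) (θ a b : ℝ), 0 < a ∧ 0 < b ∧
  F = {z : ℂ | ∃ x y : ℝ, |x| ≤ a ∧ |y| ≤ b ∧ z = c + (x : ℂ) * u θ + (y : ℂ) * u (θ + Real.pi / 2)}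

end Pool.Agent.Q140.QUAD
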